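import Pool.Agent.Lib.MP_42de19_nt.QB.Defs

set_option autoImplicit false

/-! Definitions for several parameters: the matrix at a parameter, the good points of the quadric
bundle, the parameters with a rational point. -/

namespace Pool.Agent.Lib.MP42.QB

open Topology Filter Set
open Pool.Agent.Lib.MP42.CubicHyp (castV ratV dense_ratV)

/-- the real matrix at the parameter `t` -/
noncomputable def Mt {N k : ℕ} (M : Matrix (Fin N) (Fin N) (MvPolynomial (Fin k) ℚ))
    (t : Fin k → ℝ) : Matrix (Fin N) (Fin N) ℝ := M.map (MvPolynomial.aeval t)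

theorem Mt_symm {N k : ℕ} {M : Matrix (Fin N) (Fin N) (MvPolynomial (Fin k) ℚ)} (hM : M.IsSymm)
    (t : Fin k → ℝ) : (Mt M t).IsSymm := hM.map _

/-- the parameters at which the quadric has a good real point -/
def Um {N k : ℕ} (M : Matrix (Fin N) (Fin N) (MvPolynomial (Fin k) ℚ)) : Set (Fin k → ℝ) :=
  {t | ∃ v, Good (Mt M t) v}

/-- the rational parameters at which the quadric has a good rational point -/
def Sm {N k : ℕ} (M : Matrix (Fin N) (Fin N) (MvPolynomial (Fin k) ℚ)) : Set (Fin k → ℝ) :=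
  {t | t ∈ ratV k ∧ ∃ v : Fin N → ℚ, Good (Mt M t) (castV v)}

/-- the fibre coordinates -/
def zp {n k : ℕ} (x : Fin (n + k) → ℝ) : Fin n → ℝ := fun i => x (Fin.castAdd k i)

/-- the base coordinates -/
def tp {n k : ℕ} (x : Fin (n + k) → ℝ) : Fin k → ℝ := fun j => x (Fin.natAdd n j)

/-- the good real points of the affine quadric bundle -/
def Xo {n k : ℕ} (M : Matrix (Fin (n + 1)) (Fin (n + 1)) (MvPolynomial (Fin k) ℚ)) :
    Set (Fin (n + k) → ℝ) := {x | Good (Mt M (tp x)) (Fin.cons 1 (zp x))}

end Pool.Agent.Lib.MP42.QB
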