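import Pool.Agent.Lib.MP_42de19_nt.QB.TernGen

set_option autoImplicit false

/-! Isotropic members of a pencil `s² A + s B + q (y² - x w)` of ternary quadratic forms. -/

namespace Pool.Agent.Lib.MP42.QB

open Topology Filter Set

/-- a ternary form which vanishes on the conic `y² = x w` -/
theorem Tern.eq_of_conic {B : Tern} (hB : ∀ u : ℚ, B.ev 1 u (u ^ 2) = 0) (x y w : ℚ) :
    B.ev x y w = B.c * (y ^ 2 - x * w) := by
  have h0 := hB 0
  have h1 := hB 1
  have h2 := hB (-1)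
  have h3 := hB 2
  have h4 := hB (-2)
  unfold Tern.ev at *
  have ea : B.a = 0 := by linarith
  have eb : B.b = 0 := by linarith
  have ef : B.f = 0 := by linarith
  have ee : B.e = 0 := by linarith
  have ed : B.d = -B.c / 2 := by linarith
  rw [ea, eb, ef, ee, ed]
  ring

theorem tern_near (A B : Tern) {q : ℚ} (hq : q ≠ 0) (hB : ∀ u : ℚ, B.ev 1 u (u ^ 2) = 0) :
    DenseNear (TIso A B q) := by
  refine (siso_near hq B.c 0 0 1 A).mono ?_
  rintro s ⟨x, y, w, hne, h⟩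
  refine ⟨x, y, w, hne, ?_⟩
  rw [Tern.eq_of_conic hB]
  linear_combination h

/-- the values on the conic as a polynomial function -/
noncomputable def Tern.poly (A : Tern) : Polynomial ℝ :=
  Polynomial.C (A.a : ℝ) + Polynomial.C (2 * A.b : ℝ) * Polynomial.X +
    Polynomial.C (A.c + 2 * A.d : ℝ) * Polynomial.X ^ 2 +
    Polynomial.C (2 * A.e : ℝ) * Polynomial.X ^ 3 + Polynomial.C (A.f : ℝ) * Polynomial.X ^ 4

theorem Tern.poly_eval (A : Tern) (u : ℚ) :
    A.poly.eval (u : ℝ) = ((A.ev 1 u (u ^ 2) : ℚ) : ℝ) := by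
  unfold Tern.poly Tern.ev
  simp only [Polynomial.eval_add, Polynomial.eval_mul, Polynomial.eval_C, Polynomial.eval_X,
    Polynomial.eval_pow]
  push_cast
  ring

theorem tern_interval (A B : Tern) {q : ℚ} (hq : q ≠ 0) : ∃ a b : ℝ, a < b ∧
    ∀ s ∈ Ioo a b, ∀ ε > (0 : ℝ), ∃ s' : ℚ, |(s' : ℝ) - s| < ε ∧ TIso A B q s' := by
  have key : DenseNear (TIso A B q) → ∃ a b : ℝ, a < b ∧
      ∀ s ∈ Ioo a b, ∀ ε > (0 : ℝ), ∃ s' : ℚ, |(s' : ℝ) - s| < ε ∧ TIso A B q s' := by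
    rintro ⟨δ, hδ, h⟩
    exact ⟨-δ, δ, by linarith, fun s hs => h s (abs_lt.mpr hs)⟩
  by_cases hA : ∀ u : ℚ, A.ev 1 u (u ^ 2) = 0
  · apply key
    refine (siso_near hq 0 A.c 1 0 B).mono ?_
    rintro s ⟨x, y, w, hne, h⟩
    refine ⟨x, y, w, hne, ?_⟩
    rw [Tern.eq_of_conic hA]
    linear_combination h
  push Not at hA
  obtain ⟨u1, hu1⟩ := hA
  by_cases hprop : ∀ u : ℚ, B.ev 1 u (u ^ 2) * A.ev 1 u1 (u1 ^ 2) =
      B.ev 1 u1 (u1 ^ 2) * A.ev 1 u (u ^ 2)
  · apply key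
    set cc : ℚ := B.ev 1 u1 (u1 ^ 2) / A.ev 1 u1 (u1 ^ 2) with hcc
    set D : Tern := ⟨B.a - cc * A.a, B.b - cc * A.b, B.c - cc * A.c, B.d - cc * A.d,
      B.e - cc * A.e, B.f - cc * A.f⟩ with hD
    have hDev : ∀ x y w : ℚ, D.ev x y w = B.ev x y w - cc * A.ev x y w := by
      intro x y w
      unfold Tern.ev
      rw [hD]
      ring
    have hD0 : ∀ u : ℚ, D.ev 1 u (u ^ 2) = 0 := by
      intro u
      have h1 := hprop u
      rw [hDev, hcc]
      field_simp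
      linear_combination h1
    refine (siso_near hq D.c 0 cc 1 A).mono ?_
    rintro s ⟨x, y, w, hne, h⟩
    refine ⟨x, y, w, hne, ?_⟩
    have h2 := Tern.eq_of_conic hD0 x y w
    rw [hDev] at h2
    linear_combination h + s * h2
  push Not at hprop
  obtain ⟨u2, hu2⟩ := hprop
  -- the polynomial `h`
  set P : Polynomial ℝ := B.poly * Polynomial.C (A.poly.eval (u1 : ℝ)) -
    Polynomial.C (B.poly.eval (u1 : ℝ)) * A.poly with hP
  have hP0 : P ≠ 0 := by
    intro h0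
    apply hu2
    have h1 : P.eval (u2 : ℝ) = 0 := by rw [h0]; simp
    rw [hP] at h1
    simp only [Polynomial.eval_sub, Polynomial.eval_mul, Polynomial.eval_C,
      Tern.poly_eval] at h1
    have h2 : B.ev 1 u2 (u2 ^ 2) * A.ev 1 u1 (u1 ^ 2) -
        B.ev 1 u1 (u1 ^ 2) * A.ev 1 u2 (u2 ^ 2) = 0 := by exact_mod_cast h1
    linarith
  have hA1 : A.poly.eval (u1 : ℝ) ≠ 0 := by
    rw [Tern.poly_eval]; exact_mod_cast hu1
  -- an interval without zeros of `A`
  have hev : ∀ᶠ x in 𝓝 (u1 : ℝ), A.poly.eval x ≠ 0 :=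
    A.poly.continuous.continuousAt.eventually_ne hA1
  obtain ⟨η, hη, hball⟩ := Metric.eventually_nhds_iff.mp hev
  have hin : ∀ x ∈ Icc (u1 : ℝ) (u1 + η / 2), A.poly.eval x ≠ 0 := by
    intro x hx
    refine hball ?_
    rw [Real.dist_eq, abs_lt]
    constructor <;> linarith [hx.1, hx.2]
  obtain ⟨x2, hx2, hx2'⟩ : ∃ x ∈ Icc (u1 : ℝ) (u1 + η / 2), P.eval x ≠ 0 := by
    by_contra hcon
    push Not at hcon
    apply hP0
    refine Polynomial.eq_zero_of_infinite_isRoot P ?_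
    refine Set.Infinite.mono (s := Icc (u1 : ℝ) (u1 + η / 2)) (fun x hx => hcon x hx) ?_
    exact Set.Icc_infinite (by linarith)
  set g : ℝ → ℝ := fun x => - B.poly.eval x / A.poly.eval x with hg
  have hgc : ContinuousOn g (Icc (u1 : ℝ) x2) := by
    refine ContinuousOn.div (B.poly.continuous.neg.continuousOn) A.poly.continuous.continuousOn ?_
    intro x hx
    exact hin x ⟨hx.1, hx.2.trans hx2.2⟩
  have hgne : g u1 ≠ g x2 := by
    intro h
    apply hx2'
    have h3 := hin x2 hx2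
    rw [hg] at h
    simp only [] at h
    rw [div_eq_div_iff hA1 h3] at h
    rw [hP]
    simp only [Polynomial.eval_sub, Polynomial.eval_mul, Polynomial.eval_C]
    linear_combination h
  have hsub : uIcc (g u1) (g x2) ⊆ g '' Icc (u1 : ℝ) x2 := by
    have := intermediate_value_uIcc (a := (u1 : ℝ)) (b := x2) (f := g)
      (by rw [uIcc_of_le hx2.1]; exact hgc)
    rwa [uIcc_of_le hx2.1] at this
  refine ⟨min (g u1) (g x2), max (g u1) (g x2), min_lt_max.mpr hgne, ?_⟩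
  intro s hs ε hε
  obtain ⟨x, hx, hxs⟩ := hsub (by
    rw [uIcc]
    exact ⟨hs.1.le, hs.2.le⟩ : s ∈ uIcc (g u1) (g x2))
  have hAx : A.poly.eval x ≠ 0 := hin x ⟨hx.1, hx.2.trans hx2.2⟩
  have hca : ContinuousAt g x :=
    B.poly.continuous.neg.continuousAt.div A.poly.continuous.continuousAt hAx
  have hev2 : ∀ᶠ y in 𝓝 x, |g y - s| < ε ∧ A.poly.eval y ≠ 0 := by
    have h1 : ∀ᶠ y in 𝓝 x, |g y - s| < ε := by
      obtain ⟨d, hd, hd'⟩ := Metric.continuousAt_iff.mp hca ε hε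
      refine Metric.eventually_nhds_iff.mpr ⟨d, hd, fun y hy => ?_⟩
      have := hd' hy
      rwa [Real.dist_eq, hxs] at this
    exact h1.and (A.poly.continuous.continuousAt.eventually_ne hAx)
  obtain ⟨b, hb⟩ := (Rat.denseRange_cast (𝕜 := ℝ)).exists_mem_open isOpen_interior
    ⟨x, mem_interior_iff_mem_nhds.mpr hev2⟩
  have hb' : (b : ℝ) ∈ {y | |g y - s| < ε ∧ A.poly.eval y ≠ 0} := interior_subset hb
  obtain ⟨hb1, hb2⟩ := hb'
  have hAb : A.ev 1 b (b ^ 2) ≠ 0 := by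
    intro h0
    apply hb2
    rw [Tern.poly_eval, h0, Rat.cast_zero]
  refine ⟨- B.ev 1 b (b ^ 2) / A.ev 1 b (b ^ 2), ?_, 1, b, b ^ 2, by simp, ?_⟩
  · have : ((- B.ev 1 b (b ^ 2) / A.ev 1 b (b ^ 2) : ℚ) : ℝ) = g b := by
      rw [hg]
      simp only [Tern.poly_eval]
      push_cast
      ring
    rw [this]
    exact hb1
  · field_simp
    ring

end Pool.Agent.Lib.MP42.QB
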