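import Pool.Agent.Lib.MP_42de19_nt.QT.LocOf
import Pool.Agent.Lib.MP_42de19_nt.QB.DefsB
import Pool.Agent.Lib.MP_42de19_nt.QB.TernIso

set_option autoImplicit false

/-! Several parameters: the closure of the set of the parameters at which the quadric has a good
rational point is open in the set of the parameters at which it has a good real point. -/

namespace Pool.Agent.Lib.MP42.QB

open Topology Filter Set

/-- [E1] -/
theorem box {N k : ℕ} {M : Matrix (Fin N) (Fin N) (MvPolynomial (Fin k) ℚ)} (hM : M.IsSymm)
    (hdeg : ∀ i j l, (M i j).degreeOf l ≤ 2) : IsOpen (closure (Sm M) ∩ Um M) :=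
  QT.box (QT.loc_of_tern (fun A B _ hq => tern_interval A B hq)
    (fun A B _ hq hB => tern_near A B hq hB)) M hM hdeg

end Pool.Agent.Lib.MP42.QB
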