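import Pool.Agent.Lib.MP_42de19_nt.QB.Defs

set_option autoImplicit false

/-! Density near zero, and the nodal rational curve cut out on an intersection of two quadrics by
the tangent hyperplane section with a given rational branch. -/

namespace Pool.Agent.Lib.MP42.QB

open Topology Filter Set

/-- values of a continuous function with a sign change at zero -/
theorem denseNear_of_cont {Q : ℚ → Prop} (P R : ℚ → ℚ) (p r : ℝ → ℝ) (hp : Continuous p)
    (hr : Continuous r) (hP : ∀ b : ℚ, ((P b : ℚ) : ℝ) = p b) (hR : ∀ b : ℚ, ((R b : ℚ) : ℝ) = r b)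
    (h0 : P 0 ≠ 0) (h0' : R 0 ≠ 0) (h : ∀ b : ℚ, R b ≠ 0 → Q (b * P b / R b)) : DenseNear Q := by
  have hp0 : p 0 ≠ 0 := by
    have := hP 0
    rw [Rat.cast_zero] at this
    rw [← this]; exact_mod_cast h0
  have hr0 : r 0 ≠ 0 := by
    have := hR 0
    rw [Rat.cast_zero] at this
    rw [← this]; exact_mod_cast h0'
  -- a neighbourhood on which `p` and `r` do not vanish
  have hU : ∀ᶠ x in 𝓝 (0 : ℝ), p x * p 0 > 0 ∧ r x * r 0 > 0 := by
    have h1 : ∀ᶠ x in 𝓝 (0 : ℝ), p x * p 0 > 0 :=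
      (hp.mul continuous_const).continuousAt.eventually (lt_mem_nhds (mul_self_pos.mpr hp0))
    have h2 : ∀ᶠ x in 𝓝 (0 : ℝ), r x * r 0 > 0 :=
      (hr.mul continuous_const).continuousAt.eventually (lt_mem_nhds (mul_self_pos.mpr hr0))
    exact h1.and h2
  obtain ⟨η, hη, hball⟩ := Metric.eventually_nhds_iff.mp hU
  have hin : ∀ x ∈ Icc (-(η / 2)) (η / 2), p x * p 0 > 0 ∧ r x * r 0 > 0 := by
    intro x hx
    refine hball ?_
    rw [Real.dist_eq, sub_zero, abs_lt]
    constructor <;> linarith [hx.1, hx.2]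
  have hrne : ∀ x ∈ Icc (-(η / 2)) (η / 2), r x ≠ 0 := by
    intro x hx h0
    have := (hin x hx).2
    rw [h0, zero_mul] at this
    exact lt_irrefl _ this
  set φ : ℝ → ℝ := fun x => x * p x / r x with hφ
  have hcont : ContinuousOn φ (Icc (-(η / 2)) (η / 2)) :=
    ((continuous_id.mul hp).continuousOn).div hr.continuousOn hrne
  -- the sign of `φ`
  set σ : ℝ := p 0 * r 0 with hσ
  have hσ0 : σ ≠ 0 := mul_ne_zero hp0 hr0
  have hsign : ∀ x ∈ Icc (-(η / 2)) (η / 2), x ≠ 0 → 0 < x * (φ x * σ) := by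
    intro x hx hx0
    obtain ⟨h1, h2⟩ := hin x hx
    have h3 : x * (φ x * σ) = x ^ 2 * (p x * p 0) * (r x * r 0) / (r x) ^ 2 := by
      rw [hφ, hσ]
      have := hrne x hx
      field_simp
    rw [h3]
    have := hrne x hx
    positivity
  have hm1 : (-(η / 2)) ∈ Icc (-(η / 2)) (η / 2) := ⟨le_rfl, by linarith⟩
  have hm2 : (η / 2) ∈ Icc (-(η / 2)) (η / 2) := ⟨by linarith, le_rfl⟩
  have hs1 := hsign _ hm1 (by linarith)
  have hs2 := hsign _ hm2 (by linarith)
  have hs1' : φ (-(η / 2)) * σ < 0 := by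
    by_contra hcon
    push Not at hcon
    have : -(η / 2) * (φ (-(η / 2)) * σ) ≤ 0 := by
      have : 0 ≤ (η / 2) * (φ (-(η / 2)) * σ) := mul_nonneg (by linarith) hcon
      linarith
    linarith
  have hs2' : 0 < φ (η / 2) * σ := by
    by_contra hcon
    push Not at hcon
    have : (η / 2) * (φ (η / 2) * σ) ≤ 0 := by
      have : 0 ≤ (η / 2) * (-(φ (η / 2) * σ)) := mul_nonneg (by linarith) (by linarith)
      linarith
    linarith
  have hl1 : 0 < |φ (-(η / 2))| := by
    rw [abs_pos]; rintro h; rw [h, zero_mul] at hs1'; exact lt_irrefl _ hs1'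
  have hl2 : 0 < |φ (η / 2)| := by
    rw [abs_pos]; rintro h; rw [h, zero_mul] at hs2'; exact lt_irrefl _ hs2'
  refine ⟨min |φ (-(η / 2))| |φ (η / 2)|, lt_min hl1 hl2, fun s hs ε hε => ?_⟩
  have hsa : |s| < |φ (-(η / 2))| := lt_of_lt_of_le hs (min_le_left _ _)
  have hsb : |s| < |φ (η / 2)| := lt_of_lt_of_le hs (min_le_right _ _)
  -- intermediate value
  have hle : -(η / 2) ≤ η / 2 := by linarith
  obtain ⟨x, hx, hxs⟩ : ∃ x ∈ Icc (-(η / 2)) (η / 2), φ x = s := by
    rcases lt_or_gt_of_ne hσ0 with hneg | hpos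
    · have h1 : 0 < φ (-(η / 2)) := by
        by_contra hcon
        push Not at hcon
        have : 0 ≤ φ (-(η / 2)) * σ := mul_nonneg_of_nonpos_of_nonpos hcon hneg.le
        linarith
      have h2 : φ (η / 2) < 0 := by
        by_contra hcon
        push Not at hcon
        have : φ (η / 2) * σ ≤ 0 := mul_nonpos_of_nonneg_of_nonpos hcon hneg.le
        linarith
      rw [abs_of_pos h1] at hsa
      rw [abs_of_neg h2] at hsb
      have := intermediate_value_Icc' hle hcont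
      exact this ⟨by linarith [neg_abs_le s], by linarith [le_abs_self s]⟩
    · have h1 : φ (-(η / 2)) < 0 := by
        by_contra hcon
        push Not at hcon
        have : 0 ≤ φ (-(η / 2)) * σ := mul_nonneg hcon hpos.le
        linarith
      have h2 : 0 < φ (η / 2) := by
        by_contra hcon
        push Not at hcon
        have : φ (η / 2) * σ ≤ 0 := mul_nonpos_of_nonpos_of_nonneg hcon hpos.le
        linarith
      rw [abs_of_neg h1] at hsa
      rw [abs_of_pos h2] at hsb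
      have := intermediate_value_Icc hle hcont
      exact this ⟨by linarith [neg_abs_le s], by linarith [le_abs_self s]⟩
  -- rational approximation
  have hca : ContinuousAt φ x :=
    (continuous_id.mul hp).continuousAt.div hr.continuousAt (hrne x hx)
  have hev : ∀ᶠ y in 𝓝 x, |φ y - s| < ε ∧ r y ≠ 0 := by
    have h1 : ∀ᶠ y in 𝓝 x, |φ y - s| < ε := by
      have := Metric.continuousAt_iff.mp hca ε hε
      obtain ⟨d, hd, hd'⟩ := this
      refine Metric.eventually_nhds_iff.mpr ⟨d, hd, fun y hy => ?_⟩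
      have := hd' hy
      rwa [Real.dist_eq, hxs] at this
    exact h1.and (hr.continuousAt.eventually_ne (hrne x hx))
  obtain ⟨b, hb⟩ : ∃ b : ℚ, |φ (b : ℝ) - s| < ε ∧ r (b : ℝ) ≠ 0 := by
    have h1 := (Rat.denseRange_cast (𝕜 := ℝ)).exists_mem_open isOpen_interior
      ⟨x, mem_interior_iff_mem_nhds.mpr hev⟩
    obtain ⟨b, hb⟩ := h1
    have hb' : (b : ℝ) ∈ {y | |φ y - s| < ε ∧ r y ≠ 0} := interior_subset hb
    exact ⟨b, hb'⟩
  have hRb : R b ≠ 0 := by
    intro h0
    apply hb.2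
    rw [← hR b, h0, Rat.cast_zero]
  refine ⟨b * P b / R b, ?_, h b hRb⟩
  have : (((b * P b / R b : ℚ)) : ℝ) = φ (b : ℝ) := by
    rw [hφ]
    push_cast
    rw [hP, hR]
  rw [this]
  exact hb.1

theorem DenseNear.of_forall {Q : ℚ → Prop} (h : ∀ s : ℚ, Q s) : DenseNear Q := by
  refine ⟨1, one_pos, fun s _ ε hε => ?_⟩
  obtain ⟨q, hq1, hq2⟩ := exists_rat_btwn (show s - ε < s + ε by linarith)
  exact ⟨q, by rw [abs_lt]; constructor <;> linarith, h q⟩

theorem DenseNear.mono {Q Q' : ℚ → Prop} (h : ∀ s : ℚ, Q s → Q' s) (hQ : DenseNear Q) :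
    DenseNear Q' := by
  obtain ⟨δ, hδ, h1⟩ := hQ
  refine ⟨δ, hδ, fun s hs ε hε => ?_⟩
  obtain ⟨s', h2, h3⟩ := h1 s hs ε hε
  exact ⟨s', h2, h s' h3⟩

/-- the rational curve -/
theorem curve {N : ℕ} {M₁ M₂ : Matrix (Fin N) (Fin N) ℚ} (h1 : M₁.IsSymm) (h2 : M₂.IsSymm)
    {p e o w : Fin N → ℚ} {i j : Fin N}
    (hp1 : bl M₁ p p = 0) (hp2 : bl M₂ p p = 0) (he1 : bl M₁ p e = 0) (he2 : bl M₂ p e = 0)
    (ho1 : bl M₁ p o = 0) (ho2 : bl M₂ p o = 0) (hw1 : bl M₁ p w = bl M₁ e e)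
    (hw2 : bl M₂ p w = bl M₂ e e)
    (hew : bl M₂ e e * bl M₁ e w = bl M₁ e e * bl M₂ e w)
    (hW : bl M₂ e e * bl M₁ e o ≠ bl M₁ e e * bl M₂ e o)
    (hpi : p i = 0) (hpj : p j = 1) (hei : e i = 1) {Q : ℚ → Prop}
    (hQ : ∀ v : Fin N → ℚ, bl M₁ v v = 0 → bl M₂ v v = 0 → v j ≠ 0 → Q (v i / v j)) :
    DenseNear Q := by
  set m1 := bl M₁ e e with hm1
  set m2 := bl M₂ e e with hm2
  set M := m1 ^ 2 + m2 ^ 2 with hM
  have hM0 : M ≠ 0 := by
    intro h0
    have ha : m1 = 0 := by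
      have : m1 ^ 2 ≤ 0 := by nlinarith [sq_nonneg m2]
      exact pow_eq_zero_iff (two_ne_zero) |>.mp (le_antisymm this (sq_nonneg _))
    have hb : m2 = 0 := by
      have : m2 ^ 2 ≤ 0 := by nlinarith [sq_nonneg m1]
      exact pow_eq_zero_iff (two_ne_zero) |>.mp (le_antisymm this (sq_nonneg _))
    exact hW (by rw [ha, hb, zero_mul, zero_mul])
  -- the point attached to a vector `g` with `m2 F1(g) = m1 F2(g)` and `B_i(p, g) = m_i β`
  have key : ∀ (g : Fin N → ℚ) (β : ℚ), bl M₁ p g = m1 * β → bl M₂ p g = m2 * β →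
      m2 * bl M₁ g g = m1 * bl M₂ g g →
      ∀ v : Fin N → ℚ, v = (-(m1 * bl M₁ g g + m2 * bl M₂ g g)) • p + (2 * M * β) • g →
      bl M₁ v v = 0 ∧ bl M₂ v v = 0 := by
    intro g β hg1 hg2 hgg v hv
    subst hv
    constructor
    · simp only [bl_add_left, bl_add_right, bl_smul_left, bl_smul_right]
      rw [bl_comm h1 g p, hg1, hp1, hM]
      linear_combination (4 * (m1 ^ 2 + m2 ^ 2) * β ^ 2 * m2) * hgg
    · simp only [bl_add_left, bl_add_right, bl_smul_left, bl_smul_right]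
      rw [bl_comm h2 g p, hg2, hp2, hM]
      linear_combination (- 4 * (m1 ^ 2 + m2 ^ 2) * β ^ 2 * m1) * hgg
  by_cases hL : m2 * bl M₁ w w = m1 * bl M₂ w w
  · -- the line case
    refine denseNear_of_cont
      (P := fun b => 2 * M * (1 + b * w i))
      (R := fun b => -(m1 * (m1 + 2 * b * bl M₁ e w + b ^ 2 * bl M₁ w w) +
        m2 * (m2 + 2 * b * bl M₂ e w + b ^ 2 * bl M₂ w w)) + 2 * M * b * (e j + b * w j))
      (p := fun b => 2 * M * (1 + b * w i))
      (r := fun b => -(m1 * (m1 + 2 * b * bl M₁ e w + b ^ 2 * bl M₁ w w) +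
        m2 * (m2 + 2 * b * bl M₂ e w + b ^ 2 * bl M₂ w w)) + 2 * M * b * (e j + b * w j))
      (by fun_prop) (by fun_prop) (by intro b; push_cast; ring) (by intro b; push_cast; ring)
      ?_ ?_ ?_
    · simpa using hM0
    · have : (fun b : ℚ => -(m1 * (m1 + 2 * b * bl M₁ e w + b ^ 2 * bl M₁ w w) +
        m2 * (m2 + 2 * b * bl M₂ e w + b ^ 2 * bl M₂ w w)) + 2 * M * b * (e j + b * w j)) 0 =
          - M := by
        simp only []
        rw [hM]; ring
      simp only [] at this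
      rw [this]
      exact neg_ne_zero.mpr hM0
    · intro b hb
      set g : Fin N → ℚ := e + b • w with hg
      have hg1 : bl M₁ p g = m1 * b := by
        rw [hg, bl_add_right, bl_smul_right, he1, hw1]; ring
      have hg2 : bl M₂ p g = m2 * b := by
        rw [hg, bl_add_right, bl_smul_right, he2, hw2]; ring
      have hgg1 : bl M₁ g g = m1 + 2 * b * bl M₁ e w + b ^ 2 * bl M₁ w w := by
        rw [hg]
        simp only [bl_add_left, bl_add_right, bl_smul_left, bl_smul_right]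
        rw [bl_comm h1 w e]; ring
      have hgg2 : bl M₂ g g = m2 + 2 * b * bl M₂ e w + b ^ 2 * bl M₂ w w := by
        rw [hg]
        simp only [bl_add_left, bl_add_right, bl_smul_left, bl_smul_right]
        rw [bl_comm h2 w e]; ring
      have hgg : m2 * bl M₁ g g = m1 * bl M₂ g g := by
        rw [hgg1, hgg2]; linear_combination 2 * b * hew + b ^ 2 * hL
      obtain ⟨hv1, hv2⟩ := key g b hg1 hg2 hgg _ rfl
      have h3 := hQ _ hv1 hv2
      simp only [Pi.add_apply, Pi.smul_apply, smul_eq_mul, hpi, hpj, hg, hei, mul_zero, mul_one,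
        zero_add] at h3
      rw [hg] at hgg1 hgg2
      rw [hgg1, hgg2] at h3
      have h4 := h3 (by
        intro h5; apply hb
        linear_combination h5)
      refine Eq.mpr (congrArg Q ?_) h4
      ring
  · -- the conic case
    set W := m2 * bl M₁ e o - m1 * bl M₂ e o with hWdef
    have hW0 : W ≠ 0 := sub_ne_zero.mpr hW
    set l0 := m2 * bl M₁ w w - m1 * bl M₂ w w with hl0
    have hl0' : l0 ≠ 0 := sub_ne_zero.mpr hL
    set l1 := m2 * bl M₁ w o - m1 * bl M₂ w o with hl1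
    set l2 := m2 * bl M₁ o o - m1 * bl M₂ o o with hl2
    refine denseNear_of_cont
      (P := fun b => -(4 * M * W) * ((l0 + 2 * b * l1 + b ^ 2 * l2) -
        2 * b * W * (w i + b * o i)))
      (R := fun b => -(m1 * ((l0 + 2 * b * l1 + b ^ 2 * l2) ^ 2 * m1 +
          2 * (l0 + 2 * b * l1 + b ^ 2 * l2) * (-(2 * b * W)) * (bl M₁ e w + b * bl M₁ e o) +
          (2 * b * W) ^ 2 * (bl M₁ w w + 2 * b * bl M₁ w o + b ^ 2 * bl M₁ o o)) +
        m2 * ((l0 + 2 * b * l1 + b ^ 2 * l2) ^ 2 * m2 +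
          2 * (l0 + 2 * b * l1 + b ^ 2 * l2) * (-(2 * b * W)) * (bl M₂ e w + b * bl M₂ e o) +
          (2 * b * W) ^ 2 * (bl M₂ w w + 2 * b * bl M₂ w o + b ^ 2 * bl M₂ o o))) +
        2 * M * (-(2 * b * W)) * ((l0 + 2 * b * l1 + b ^ 2 * l2) * e j -
          2 * b * W * (w j + b * o j)))
      (p := fun b => -(4 * M * W) * ((l0 + 2 * b * l1 + b ^ 2 * l2) -
        2 * b * W * (w i + b * o i)))
      (r := fun b => -(m1 * ((l0 + 2 * b * l1 + b ^ 2 * l2) ^ 2 * m1 +
          2 * (l0 + 2 * b * l1 + b ^ 2 * l2) * (-(2 * b * W)) * (bl M₁ e w + b * bl M₁ e o) +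
          (2 * b * W) ^ 2 * (bl M₁ w w + 2 * b * bl M₁ w o + b ^ 2 * bl M₁ o o)) +
        m2 * ((l0 + 2 * b * l1 + b ^ 2 * l2) ^ 2 * m2 +
          2 * (l0 + 2 * b * l1 + b ^ 2 * l2) * (-(2 * b * W)) * (bl M₂ e w + b * bl M₂ e o) +
          (2 * b * W) ^ 2 * (bl M₂ w w + 2 * b * bl M₂ w o + b ^ 2 * bl M₂ o o))) +
        2 * M * (-(2 * b * W)) * ((l0 + 2 * b * l1 + b ^ 2 * l2) * e j -
          2 * b * W * (w j + b * o j)))
      (by fun_prop) (by fun_prop) (by intro b; push_cast; ring) (by intro b; push_cast; ring)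
      ?_ ?_ ?_
    · simp only [mul_zero, zero_mul, add_zero, ne_eq, OfNat.ofNat_ne_zero, not_false_eq_true,
        zero_pow, sub_zero]
      exact mul_ne_zero (neg_ne_zero.mpr (mul_ne_zero (mul_ne_zero four_ne_zero hM0) hW0)) hl0'
    · simp only [mul_zero, zero_mul, add_zero, ne_eq, OfNat.ofNat_ne_zero, not_false_eq_true,
        zero_pow, sub_zero, neg_zero]
      have : -(m1 * (l0 ^ 2 * m1) + m2 * (l0 ^ 2 * m2)) = - (l0 ^ 2 * M) := by rw [hM]; ring
      rw [this]
      exact neg_ne_zero.mpr (mul_ne_zero (pow_ne_zero 2 hl0') hM0)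
    · intro b hb
      set lam := l0 + 2 * b * l1 + b ^ 2 * l2 with hlam
      set g : Fin N → ℚ := lam • e + (-(2 * b * W)) • (w + b • o) with hg
      have hg1 : bl M₁ p g = m1 * (-(2 * b * W)) := by
        rw [hg]
        simp only [bl_add_right, bl_smul_right]
        rw [he1, hw1, ho1]; ring
      have hg2 : bl M₂ p g = m2 * (-(2 * b * W)) := by
        rw [hg]
        simp only [bl_add_right, bl_smul_right]
        rw [he2, hw2, ho2]; ring
      have hgg1 : bl M₁ g g = lam ^ 2 * m1 +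
          2 * lam * (-(2 * b * W)) * (bl M₁ e w + b * bl M₁ e o) +
          (2 * b * W) ^ 2 * (bl M₁ w w + 2 * b * bl M₁ w o + b ^ 2 * bl M₁ o o) := by
        rw [hg]
        simp only [bl_add_left, bl_add_right, bl_smul_left, bl_smul_right]
        rw [bl_comm h1 w e, bl_comm h1 o e, bl_comm h1 o w]; ring
      have hgg2 : bl M₂ g g = lam ^ 2 * m2 +
          2 * lam * (-(2 * b * W)) * (bl M₂ e w + b * bl M₂ e o) +
          (2 * b * W) ^ 2 * (bl M₂ w w + 2 * b * bl M₂ w o + b ^ 2 * bl M₂ o o) := by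
        rw [hg]
        simp only [bl_add_left, bl_add_right, bl_smul_left, bl_smul_right]
        rw [bl_comm h2 w e, bl_comm h2 o e, bl_comm h2 o w]; ring
      have hgg : m2 * bl M₁ g g = m1 * bl M₂ g g := by
        rw [hgg1, hgg2, hlam, hl0, hl1, hl2, hWdef]
        linear_combination (-(4 * b * (m2 * bl M₁ e o - m1 * bl M₂ e o)) *
          ((m2 * bl M₁ w w - m1 * bl M₂ w w) + 2 * b * (m2 * bl M₁ w o - m1 * bl M₂ w o) +
            b ^ 2 * (m2 * bl M₁ o o - m1 * bl M₂ o o))) * hew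
      obtain ⟨hv1, hv2⟩ := key g (-(2 * b * W)) hg1 hg2 hgg _ rfl
      have h3 := hQ _ hv1 hv2
      simp only [Pi.add_apply, Pi.smul_apply, smul_eq_mul, hpi, hpj, mul_zero, mul_one,
        zero_add] at h3
      rw [hgg1, hgg2] at h3
      simp only [hg, Pi.add_apply, Pi.smul_apply, smul_eq_mul, hei, mul_one] at h3
      have h4 := h3 (by
        intro h5; apply hb
        linear_combination h5)
      refine Eq.mpr (congrArg Q ?_) h4
      refine congrArg₂ (· / ·) ?_ ?_
      · ring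
      · ring

end Pool.Agent.Lib.MP42.QB
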