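import Pool.Agent.Lib.MP_42de19_nt.CubicHyp.Coord

set_option autoImplicit false

/-! Quadric bundles over affine space whose coefficients are of degree at most two in each
variable of the base (MP_42de19_nt): bilinear forms of matrices, good points of quadrics,
quadratic pencils of matrices, ternary forms. -/

namespace Pool.Agent.Lib.MP42.QB

open Topology Filter Set
open Pool.Agent.Lib.MP42.CubicHyp (castV ratV dense_ratV)

section bl

variable {N : ℕ} {K : Type*} [CommRing K]

/-- the bilinear form of a matrix -/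
def bl (M : Matrix (Fin N) (Fin N) K) (v w : Fin N → K) : K := ∑ i, ∑ j, M i j * v i * w j

theorem bl_add_left (M : Matrix (Fin N) (Fin N) K) (v v' w : Fin N → K) :
    bl M (v + v') w = bl M v w + bl M v' w := by
  simp only [bl, Pi.add_apply, mul_add, add_mul, Finset.sum_add_distrib]

theorem bl_add_right (M : Matrix (Fin N) (Fin N) K) (v w w' : Fin N → K) :
    bl M v (w + w') = bl M v w + bl M v w' := by
  simp only [bl, Pi.add_apply, mul_add, Finset.sum_add_distrib]

theorem bl_smul_left (M : Matrix (Fin N) (Fin N) K) (c : K) (v w : Fin N → K) :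
    bl M (c • v) w = c * bl M v w := by
  simp only [bl, Pi.smul_apply, smul_eq_mul, Finset.mul_sum]
  refine Finset.sum_congr rfl fun i _ => Finset.sum_congr rfl fun j _ => ?_
  ring

theorem bl_smul_right (M : Matrix (Fin N) (Fin N) K) (c : K) (v w : Fin N → K) :
    bl M v (c • w) = c * bl M v w := by
  simp only [bl, Pi.smul_apply, smul_eq_mul, Finset.mul_sum]
  refine Finset.sum_congr rfl fun i _ => Finset.sum_congr rfl fun j _ => ?_
  ring

theorem bl_neg_left (M : Matrix (Fin N) (Fin N) K) (v w : Fin N → K) :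
    bl M (-v) w = - bl M v w := by
  rw [← neg_one_smul K v, bl_smul_left, neg_one_mul]

theorem bl_neg_right (M : Matrix (Fin N) (Fin N) K) (v w : Fin N → K) :
    bl M v (-w) = - bl M v w := by
  rw [← neg_one_smul K w, bl_smul_right, neg_one_mul]

theorem bl_sub_left (M : Matrix (Fin N) (Fin N) K) (v v' w : Fin N → K) :
    bl M (v - v') w = bl M v w - bl M v' w := by
  rw [sub_eq_add_neg, bl_add_left, bl_neg_left, sub_eq_add_neg]

theorem bl_sub_right (M : Matrix (Fin N) (Fin N) K) (v w w' : Fin N → K) :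
    bl M v (w - w') = bl M v w - bl M v w' := by
  rw [sub_eq_add_neg, bl_add_right, bl_neg_right, sub_eq_add_neg]

theorem bl_zero_left (M : Matrix (Fin N) (Fin N) K) (w : Fin N → K) : bl M 0 w = 0 := by
  simp [bl]

theorem bl_zero_right (M : Matrix (Fin N) (Fin N) K) (v : Fin N → K) : bl M v 0 = 0 := by
  simp [bl]

theorem bl_madd (M M' : Matrix (Fin N) (Fin N) K) (v w : Fin N → K) :
    bl (M + M') v w = bl M v w + bl M' v w := by
  simp only [bl, Matrix.add_apply, add_mul, Finset.sum_add_distrib]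

theorem bl_msmul (c : K) (M : Matrix (Fin N) (Fin N) K) (v w : Fin N → K) :
    bl (c • M) v w = c * bl M v w := by
  simp only [bl, Matrix.smul_apply, smul_eq_mul, Finset.mul_sum]
  refine Finset.sum_congr rfl fun i _ => Finset.sum_congr rfl fun j _ => ?_
  ring

theorem bl_comm {M : Matrix (Fin N) (Fin N) K} (hM : M.IsSymm) (v w : Fin N → K) :
    bl M v w = bl M w v := by
  unfold bl
  rw [Finset.sum_comm]
  refine Finset.sum_congr rfl fun i _ => Finset.sum_congr rfl fun j _ => ?_
  rw [hM.apply i j]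
  ring

end bl

/-- real matrix of a rational matrix -/
noncomputable def castM {N : ℕ} (A : Matrix (Fin N) (Fin N) ℚ) : Matrix (Fin N) (Fin N) ℝ :=
  A.map (Rat.cast : ℚ → ℝ)

theorem castM_symm {N : ℕ} {A : Matrix (Fin N) (Fin N) ℚ} (hA : A.IsSymm) : (castM A).IsSymm :=
  hA.map _

theorem bl_cast {N : ℕ} (A : Matrix (Fin N) (Fin N) ℚ) (v w : Fin N → ℚ) :
    bl (castM A) (castV v) (castV w) = ((bl A v w : ℚ) : ℝ) := by
  simp only [bl, castM, castV, Matrix.map_apply]
  push_cast
  rfl

/-- the quadric of `M` has a nonsingular zero `v` and its rank is at least three -/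
def Good {N : ℕ} (M : Matrix (Fin N) (Fin N) ℝ) (v : Fin N → ℝ) : Prop :=
  bl M v v = 0 ∧ (∃ w, bl M v w ≠ 0) ∧ ∃ z, bl M v z = 0 ∧ bl M z z ≠ 0

/-- quadratic pencil of matrices -/
noncomputable def pen {N : ℕ} (A B C : Matrix (Fin N) (Fin N) ℚ) (s : ℝ) :
    Matrix (Fin N) (Fin N) ℝ := s ^ 2 • castM A + s • castM B + castM C

/-- the parameters with a real good point -/
def UU {N : ℕ} (A B C : Matrix (Fin N) (Fin N) ℚ) : Set ℝ := {s | ∃ v, Good (pen A B C s) v}

/-- the rational parameters with a rational good point -/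
def Sg {N : ℕ} (A B C : Matrix (Fin N) (Fin N) ℚ) : Set ℝ :=
  {s | (∃ r : ℚ, (r : ℝ) = s) ∧ ∃ v : Fin N → ℚ, Good (pen A B C s) (castV v)}

theorem bl_pen {N : ℕ} (A B C : Matrix (Fin N) (Fin N) ℚ) (s : ℝ) (v w : Fin N → ℝ) :
    bl (pen A B C s) v w = s ^ 2 * bl (castM A) v w + s * bl (castM B) v w + bl (castM C) v w := by
  rw [pen, bl_madd, bl_madd, bl_msmul, bl_msmul]

theorem pen_symm {N : ℕ} {A B C : Matrix (Fin N) (Fin N) ℚ} (hA : A.IsSymm) (hB : B.IsSymm)
    (hC : C.IsSymm) (s : ℝ) : (pen A B C s).IsSymm := by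
  unfold pen
  exact (((castM_symm hA).smul _).add ((castM_symm hB).smul _)).add (castM_symm hC)

theorem castM_add {N : ℕ} (A B : Matrix (Fin N) (Fin N) ℚ) : castM (A + B) = castM A + castM B := by
  ext i j; simp [castM]

theorem castM_smul {N : ℕ} (r : ℚ) (A : Matrix (Fin N) (Fin N) ℚ) :
    castM (r • A) = (r : ℝ) • castM A := by
  ext i j; simp [castM]

/-- at rational parameters the matrix is rational -/
theorem pen_rat {N : ℕ} (A B C : Matrix (Fin N) (Fin N) ℚ) (r : ℚ) :
    pen A B C (r : ℝ) = castM (r ^ 2 • A + r • B + C) := by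
  rw [castM_add, castM_add, castM_smul, castM_smul, pen]
  push_cast
  rfl

/-- ternary quadratic forms `a x² + 2 b x y + c y² + 2 d x w + 2 e y w + f w²` -/
structure Tern where
  (a b c d e f : ℚ)

/-- value of a ternary form -/
def Tern.ev (R : Tern) (x y w : ℚ) : ℚ :=
  R.a * x ^ 2 + 2 * R.b * (x * y) + R.c * y ^ 2 + 2 * R.d * (x * w) + 2 * R.e * (y * w) +
    R.f * w ^ 2

/-- the form `s² A + s B + q (y² - x w)` has a nontrivial rational zero -/
def TIso (A B : Tern) (q : ℚ) (s : ℚ) : Prop :=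
  ∃ x y w : ℚ, ¬ (x = 0 ∧ y = 0 ∧ w = 0) ∧
    s ^ 2 * A.ev x y w + s * B.ev x y w + q * (y ^ 2 - x * w) = 0

/-- a property of rationals which holds on a dense subset of a neighbourhood of zero -/
def DenseNear (P : ℚ → Prop) : Prop :=
  ∃ δ : ℝ, 0 < δ ∧ ∀ s : ℝ, |s| < δ → ∀ ε > (0 : ℝ), ∃ s' : ℚ, |(s' : ℝ) - s| < ε ∧ P s'

end Pool.Agent.Lib.MP42.QB
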