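import Pool.Agent.Lib.MP_42de19_nt.QB.Defs

set_option autoImplicit false

/-! Quadric bundles (MP_42de19_nt), piece B2: density of the rational points of a quadric. -/

namespace Pool.Agent.Lib.MP42.QB

open Topology Filter Set
open Pool.Agent.Lib.MP42.CubicHyp (castV ratV dense_ratV)

variable {N : ℕ}

/-- a bilinear form is continuous -/
theorem b2_cont (F : Matrix (Fin N) (Fin N) ℝ) :
    Continuous fun p : (Fin N → ℝ) × (Fin N → ℝ) => bl F p.1 p.2 := by
  unfold bl
  fun_prop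

/-- reflection of `w` at `z` (up to the factor `F z z`) -/
theorem b2_refl {K : Type*} [CommRing K] {F : Matrix (Fin N) (Fin N) K} (hF : F.IsSymm)
    {w : Fin N → K} (hw : bl F w w = 0) (z : Fin N → K) (c : K) :
    bl F (c • (bl F z z • w - (2 * bl F w z) • z)) (c • (bl F z z • w - (2 * bl F w z) • z)) = 0 := by
  simp only [bl_smul_left, bl_smul_right, bl_sub_left, bl_sub_right]
  rw [hw, bl_comm hF z w]
  ring

/-- a common vector on which two functionals do not vanish -/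
theorem b2_common {F : Matrix (Fin N) (Fin N) ℝ} {v w : Fin N → ℝ}
    (hv : ∃ x, bl F v x ≠ 0) (hw : ∃ x, bl F w x ≠ 0) : ∃ x, bl F v x ≠ 0 ∧ bl F w x ≠ 0 := by
  obtain ⟨a, ha⟩ := hv
  obtain ⟨b, hb⟩ := hw
  by_cases h1 : bl F w a = 0
  · by_cases h2 : bl F v b = 0
    · refine ⟨a + b, ?_, ?_⟩
      · rw [bl_add_right, h2, add_zero]; exact ha
      · rw [bl_add_right, h1, zero_add]; exact hb
    · exact ⟨b, h2, hb⟩
  · exact ⟨a, ha, h1⟩

/-- step 1: a real zero near `w` which is not orthogonal to `v` -/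
private theorem step1 {F : Matrix (Fin N) (Fin N) ℝ} (hF : F.IsSymm) {v : Fin N → ℝ}
    (hv' : ∃ x, bl F v x ≠ 0) {w : Fin N → ℝ} (hw : Good F w) {O : Set (Fin N → ℝ)}
    (hO : O ∈ 𝓝 w) : ∃ w', O ∈ 𝓝 w' ∧ bl F w' w' = 0 ∧ bl F v w' ≠ 0 := by
  obtain ⟨hw0, hw1, z, hz0, hz1⟩ := hw
  by_cases hvw : bl F v w = 0
  swap
  · exact ⟨w, hO, hw0, hvw⟩
  obtain ⟨ν, hν1, hν2⟩ := b2_common hw1 hv'
  set ze : ℝ → Fin N → ℝ := fun e => z + e • ν with hze
  have hzc : Continuous ze := by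
    rw [hze]
    fun_prop
  have hc1 : Continuous fun e => bl F (ze e) (ze e) :=
    (b2_cont F).comp (hzc.prodMk hzc)
  have hc2 : Continuous fun e => bl F w (ze e) :=
    (b2_cont F).comp (continuous_const.prodMk hzc)
  set we : ℝ → Fin N → ℝ := fun e =>
    (bl F (ze e) (ze e))⁻¹ • (bl F (ze e) (ze e) • w - (2 * bl F w (ze e)) • ze e) with hwe
  have hz_0 : ze 0 = z := by simp [hze]
  have hwc : ContinuousAt we 0 := by
    rw [hwe]
    refine ContinuousAt.smul (hc1.continuousAt.inv₀ (by rw [hz_0]; exact hz1)) ?_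
    have : Continuous fun e => bl F (ze e) (ze e) • w - (2 * bl F w (ze e)) • ze e := by
      fun_prop
    exact this.continuousAt
  have hw_0 : we 0 = w := by
    simp only [hwe, hz_0, hz0, mul_zero, zero_smul, sub_zero]
    rw [smul_smul, inv_mul_cancel₀ hz1, one_smul]
  have h1 : ∀ᶠ e in 𝓝 (0 : ℝ), O ∈ 𝓝 (we e) := by
    have h2 : ∀ᶠ x in 𝓝 (we 0), O ∈ 𝓝 x := by
      rw [hw_0]
      exact eventually_mem_nhds_iff.2 hO
    exact hwc.eventually h2
  have h2 : ∀ᶠ e in 𝓝 (0 : ℝ), bl F (ze e) (ze e) ≠ 0 :=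
    hc1.continuousAt.eventually_ne (by rw [hz_0]; exact hz1)
  -- the product is nonzero
  have h3 : ∀ᶠ e in 𝓝[≠] (0 : ℝ), bl F v (ze e) ≠ 0 := by
    have e1 : ∀ e, bl F v (ze e) = bl F v z + e * bl F v ν := by
      intro e
      simp only [hze, bl_add_right, bl_smul_right]
    by_cases h : bl F v z = 0
    · filter_upwards [self_mem_nhdsWithin] with e he
      rw [e1, h, zero_add]
      exact mul_ne_zero he hν2
    · have h4 : Continuous fun e => bl F v (ze e) :=
        (b2_cont F).comp (continuous_const.prodMk hzc)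
      exact (h4.continuousAt.eventually_ne (by rw [hz_0]; exact h)).filter_mono nhdsWithin_le_nhds
  obtain ⟨e, he, ⟨he1, he2⟩, he3⟩ :=
    (Filter.Eventually.and (self_mem_nhdsWithin (s := {0}ᶜ) (a := (0 : ℝ)))
      (((h1.and h2).filter_mono nhdsWithin_le_nhds).and h3)).exists
  refine ⟨we e, he1, b2_refl hF hw0 _ _, ?_⟩
  simp only [hwe, bl_smul_right, bl_sub_right]
  rw [hvw, mul_zero, zero_sub]
  have e2 : bl F w (ze e) = e * bl F w ν := by
    simp only [hze, bl_add_right, bl_smul_right]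
    rw [hz0, zero_add]
  rw [e2]
  exact mul_ne_zero (inv_ne_zero he2) (neg_ne_zero.2 (mul_ne_zero (mul_ne_zero two_ne_zero
    (mul_ne_zero he hν1)) he3))

/-- the rational points of a quadric with a nonsingular rational point are dense near the good
real points -/
theorem exists_rat_zero {A : Matrix (Fin N) (Fin N) ℚ} (hA : A.IsSymm) {v : Fin N → ℚ}
    (hv : bl A v v = 0) (hv' : ∃ w, bl A v w ≠ 0) {w : Fin N → ℝ} (hw : Good (castM A) w)
    {O : Set (Fin N → ℝ)} (hO : O ∈ 𝓝 w) :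
    ∃ v' : Fin N → ℚ, castV v' ∈ O ∧ bl A v' v' = 0 := by
  have hF : (castM A).IsSymm := castM_symm hA
  have hV : bl (castM A) (castV v) (castV v) = 0 := by rw [bl_cast, hv, Rat.cast_zero]
  have hV' : ∃ x, bl (castM A) (castV v) x ≠ 0 := by
    obtain ⟨x, hx⟩ := hv'
    refine ⟨castV x, ?_⟩
    rw [bl_cast]
    exact_mod_cast hx
  obtain ⟨w', hw1, hw2, hw3⟩ := step1 hF hV' hw hO
  set F := castM A with hFd
  set V := castV v with hVd
  set Φ : ℝ × (Fin N → ℝ) → (Fin N → ℝ) := fun p =>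
    p.1 • (bl F p.2 p.2 • V - (2 * bl F V p.2) • p.2) with hΦ
  have hc1 : Continuous fun p : ℝ × (Fin N → ℝ) => bl F p.2 p.2 :=
    (b2_cont F).comp (continuous_snd.prodMk continuous_snd)
  have hc2 : Continuous fun p : ℝ × (Fin N → ℝ) => bl F V p.2 :=
    (b2_cont F).comp (continuous_const.prodMk continuous_snd)
  have hΦc : Continuous Φ := by
    rw [hΦ]
    fun_prop
  have hval : Φ ((-(2 * bl F V w'))⁻¹, V - w') = w' := by
    simp only [hΦ, bl_sub_left, bl_sub_right]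
    rw [hV, hw2, bl_comm hF w' V]
    funext i
    simp only [Pi.smul_apply, Pi.sub_apply, smul_eq_mul]
    field_simp
    ring
  have hO' : Φ ⁻¹' O ∈ 𝓝 ((-(2 * bl F V w'))⁻¹, V - w') :=
    hΦc.continuousAt.preimage_mem_nhds (by rw [hval]; exact hw1)
  have hd : Dense (Set.range (fun q : ℚ × (Fin N → ℚ) => ((q.1 : ℝ), castV q.2))) := by
    have h1 : DenseRange (Prod.map (fun q : ℚ => (q : ℝ)) (castV : (Fin N → ℚ) → (Fin N → ℝ))) :=
      Rat.denseRange_cast.prodMap (dense_ratV N)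
    exact h1
  obtain ⟨p, hp, ⟨c, z⟩, rfl⟩ := (mem_closure_iff_nhds.1 (hd _)) _ hO'
  refine ⟨c • (bl A z z • v - (2 * bl A v z) • z), ?_, b2_refl hA hv z c⟩
  have h1 : castV (c • (bl A z z • v - (2 * bl A v z) • z)) = Φ ((c : ℝ), castV z) := by
    simp only [hΦ, hFd, hVd, bl_cast]
    funext i
    simp only [castV, Pi.smul_apply, Pi.sub_apply, smul_eq_mul]
    push_cast
    rfl
  rw [h1]
  exact hp

end Pool.Agent.Lib.MP42.QB
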