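import Pool.Agent.Lib.MP_42de19_nt.QB.Defs

set_option autoImplicit false

/-! Real quadratic forms of rank at least three. -/

namespace Pool.Agent.Lib.MP42.QB

variable {N : ℕ}

private theorem sq_add {F : Matrix (Fin N) (Fin N) ℝ} (hF : F.IsSymm) (v w : Fin N → ℝ) (a b : ℝ) :
    bl F (a • v + b • w) (a • v + b • w) =
      a ^ 2 * bl F v v + 2 * a * b * bl F v w + b ^ 2 * bl F w w := by
  simp only [bl_add_left, bl_add_right, bl_smul_left, bl_smul_right]
  rw [bl_comm hF w v]
  ring

private theorem sq_add' {F : Matrix (Fin N) (Fin N) ℝ} (hF : F.IsSymm) (w z : Fin N → ℝ) (t : ℝ) :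
    bl F (w + t • z) (w + t • z) = bl F w w + 2 * t * bl F w z + t ^ 2 * bl F z z := by
  have h := sq_add hF w z 1 t
  rw [one_smul] at h
  rw [h]
  ring

/-- a form which vanishes at the nonsingular zeros of a form of rank at least three is a multiple -/
theorem eq_smul_of_zero {F G : Matrix (Fin N) (Fin N) ℝ} (hF : F.IsSymm) (hG : G.IsSymm)
    {v₀ : Fin N → ℝ} (h0 : Good F v₀)
    (h : ∀ v, bl F v v = 0 → (∃ w, bl F v w ≠ 0) → bl G v v = 0) :
    ∃ c : ℝ, ∀ v w, bl G v w = c * bl F v w := by
  obtain ⟨h1, ⟨nu, hnu⟩, z, hz1, hz2⟩ := h0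
  have hG0 : bl G v₀ v₀ = 0 := h v₀ h1 ⟨nu, hnu⟩
  -- the basic identity
  have star : ∀ w, bl F v₀ w ≠ 0 → bl F w w * bl G v₀ w = bl F v₀ w * bl G w w := by
    intro w hw
    have e1 : bl F (bl F w w • v₀ + (-2 * bl F v₀ w) • w) (bl F w w • v₀ + (-2 * bl F v₀ w) • w) =
        0 := by
      rw [sq_add hF, h1]
      ring
    have e2 : ∃ x, bl F (bl F w w • v₀ + (-2 * bl F v₀ w) • w) x ≠ 0 := by
      by_cases hww : bl F w w = 0
      · refine ⟨v₀, ?_⟩
        rw [bl_add_left, bl_smul_left, bl_smul_left, h1, bl_comm hF w v₀, hww]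
        intro hc
        apply hw
        have : bl F v₀ w ^ 2 = 0 := by linarith
        exact pow_eq_zero_iff (two_ne_zero) |>.1 this
      · refine ⟨w, ?_⟩
        rw [bl_add_left, bl_smul_left, bl_smul_left]
        intro hc
        have : bl F w w * bl F v₀ w = 0 := by linarith
        rcases mul_eq_zero.1 this with h' | h'
        · exact hww h'
        · exact hw h'
    have e3 := h _ e1 e2
    rw [sq_add hG, hG0] at e3
    have e4 : bl F v₀ w * (bl F w w * bl G v₀ w - bl F v₀ w * bl G w w) = 0 := by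
      linear_combination (-1 / 4) * e3
    rcases mul_eq_zero.1 e4 with h' | h'
    · exact absurd h' hw
    · linarith
  -- on the kernel
  have ker1 : ∀ w, bl F v₀ w = 0 → bl F w w * bl G v₀ w = 0 := by
    intro w hw
    have p : ∀ t : ℝ, t ≠ 0 → (bl F w w + 2 * t * bl F w nu + t ^ 2 * bl F nu nu) *
        (bl G v₀ w + t * bl G v₀ nu) = (t * bl F v₀ nu) *
        (bl G w w + 2 * t * bl G w nu + t ^ 2 * bl G nu nu) := by
      intro t ht
      have h2 := star (w + t • nu) (by
        rw [bl_add_right, bl_smul_right, hw, zero_add]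
        exact mul_ne_zero ht hnu)
      rw [sq_add' hF, sq_add' hG, bl_add_right, bl_add_right, bl_smul_right, bl_smul_right, hw,
        zero_add] at h2
      exact h2
    have p1 := p 1 (by norm_num)
    have p2 := p (-1) (by norm_num)
    have p3 := p 2 (by norm_num)
    have p4 := p (-2) (by norm_num)
    linear_combination (4 / 6) * p1 + (4 / 6) * p2 - (1 / 6) * p3 - (1 / 6) * p4
  have hmz : bl G v₀ z = 0 := by
    rcases mul_eq_zero.1 (ker1 z hz1) with h' | h'
    · exact absurd h' hz2
    · exact h'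
  have ker2 : ∀ w, bl F v₀ w = 0 → bl G v₀ w = 0 := by
    intro w hw
    by_contra hm
    have p : ∀ t : ℝ, bl F w w + 2 * t * bl F w z + t ^ 2 * bl F z z = 0 := by
      intro t
      have h2 := ker1 (w + t • z) (by rw [bl_add_right, bl_smul_right, hw, hz1]; ring)
      rw [sq_add' hF, bl_add_right, bl_smul_right, hmz, mul_zero, add_zero] at h2
      rcases mul_eq_zero.1 h2 with h' | h'
      · exact h'
      · exact absurd h' hm
    have p1 := p 1
    have p2 := p (-1)
    have p0 := p 0
    apply hz2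
    linarith
  refine ⟨bl G v₀ nu / bl F v₀ nu, ?_⟩
  set c := bl G v₀ nu / bl F v₀ nu with hc
  have hcn : bl G v₀ nu = c * bl F v₀ nu := by
    rw [hc]
    field_simp
  have hm : ∀ w, bl G v₀ w = c * bl F v₀ w := by
    intro w
    have h2 := ker2 (w + (-(bl F v₀ w / bl F v₀ nu)) • nu) (by
      rw [bl_add_right, bl_smul_right]
      field_simp
      ring)
    rw [bl_add_right, bl_smul_right, hcn] at h2
    have h3 : bl F v₀ w / bl F v₀ nu * bl F v₀ nu = bl F v₀ w := by
      field_simp
    linear_combination h2 + c * h3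
  have hq1 : ∀ w, bl F v₀ w ≠ 0 → bl G w w = c * bl F w w := by
    intro w hw
    have h2 := star w hw
    rw [hm w] at h2
    apply mul_left_cancel₀ hw
    linear_combination -h2
  have hq : ∀ w, bl G w w = c * bl F w w := by
    intro w
    by_cases hw : bl F v₀ w = 0
    · have h2 := hq1 (w + (1 : ℝ) • nu) (by
        rw [bl_add_right, bl_smul_right, hw, zero_add, one_mul]
        exact hnu)
      have h3 := hq1 (w + (-1 : ℝ) • nu) (by
        rw [bl_add_right, bl_smul_right, hw, zero_add]
        exact mul_ne_zero (by norm_num) hnu)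
      have h4 := hq1 nu hnu
      rw [sq_add' hG, sq_add' hF] at h2 h3
      linear_combination (1 / 2) * h2 + (1 / 2) * h3 - h4
    · exact hq1 w hw
  intro v w
  have h2 := hq (v + (1 : ℝ) • w)
  rw [sq_add' hG, sq_add' hF] at h2
  have h3 := hq v
  have h4 := hq w
  linear_combination (1 / 2) * h2 - (1 / 2) * h3 - (1 / 2) * h4

/-- the rank does not depend on the nonsingular zero -/
theorem good_of_good {F : Matrix (Fin N) (Fin N) ℝ} (hF : F.IsSymm) {v w : Fin N → ℝ}
    (hv : Good F v) (hw : bl F w w = 0) (hw' : ∃ x, bl F w x ≠ 0) : Good F w := by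
  refine ⟨hw, hw', ?_⟩
  by_contra hcon
  have hH : ∀ z, bl F w z = 0 → bl F z z = 0 := by
    intro z hz
    by_contra hzz
    exact hcon ⟨z, hz, hzz⟩
  obtain ⟨nu, hnu⟩ := hw'
  obtain ⟨hv1, ⟨a, ha⟩, z, hz1, hz2⟩ := hv
  -- polarised
  have hH2 : ∀ x y, bl F w x = 0 → bl F w y = 0 → bl F x y = 0 := by
    intro x y hx hy
    have h1 := hH (x + (1 : ℝ) • y) (by rw [bl_add_right, bl_smul_right, hx, hy]; ring)
    rw [sq_add' hF, hH x hx, hH y hy] at h1
    linarith
  have key : ∀ x y, bl F w nu ^ 2 * bl F x y = bl F w nu * bl F w y * bl F x nu +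
      bl F w nu * bl F w x * bl F nu y - bl F w x * bl F w y * bl F nu nu := by
    intro x y
    have h1 := hH2 (bl F w nu • x + (-bl F w x) • nu) (bl F w nu • y + (-bl F w y) • nu)
      (by rw [bl_add_right, bl_smul_right, bl_smul_right]; ring)
      (by rw [bl_add_right, bl_smul_right, bl_smul_right]; ring)
    simp only [bl_add_left, bl_add_right, bl_smul_left, bl_smul_right] at h1
    linear_combination h1
  have hsq : bl F w nu ^ 2 ≠ 0 := pow_ne_zero 2 hnu
  -- `2 F(w,nu)^2 F(x,y) = h(x) m(y) + h(y) m(x)`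
  have key2 : ∀ x y, 2 * bl F w nu ^ 2 * bl F x y =
      bl F w x * (2 * bl F w nu * bl F nu y - bl F w y * bl F nu nu) +
      bl F w y * (2 * bl F w nu * bl F nu x - bl F w x * bl F nu nu) := by
    intro x y
    have h1 := key x y
    rw [bl_comm hF x nu] at h1
    linear_combination 2 * h1
  have hvv := key2 v v
  rw [hv1, mul_zero] at hvv
  have hvv2 : bl F w v * (2 * bl F w nu * bl F nu v - bl F w v * bl F nu nu) = 0 := by
    linear_combination (-1 / 2) * hvv
  have hva := key2 v a
  have hvz := key2 v z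
  have hzz := key2 z z
  rw [hz1, mul_zero] at hvz
  have hne : 2 * bl F w nu ^ 2 ≠ 0 := mul_ne_zero two_ne_zero hsq
  rcases mul_eq_zero.1 hvv2 with h' | h'
  · rw [h'] at hva hvz
    have h1 : bl F w z * (2 * bl F w nu * bl F nu v - 0 * bl F nu nu) = 0 := by
      linear_combination -hvz
    rcases mul_eq_zero.1 h1 with h2 | h2
    · rw [h2] at hzz
      apply hz2
      have : 2 * bl F w nu ^ 2 * bl F z z = 0 := by linear_combination hzz
      exact (mul_eq_zero.1 this).resolve_left hne
    · apply ha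
      have : 2 * bl F w nu ^ 2 * bl F v a = 0 := by linear_combination hva + bl F w a * h2
      exact (mul_eq_zero.1 this).resolve_left hne
  · rw [h'] at hva hvz
    have h1 : bl F w v * (2 * bl F w nu * bl F nu z - bl F w z * bl F nu nu) = 0 := by
      linear_combination -hvz
    rcases mul_eq_zero.1 h1 with h2 | h2
    · apply ha
      rw [h2] at hva
      have : 2 * bl F w nu ^ 2 * bl F v a = 0 := by linear_combination hva
      exact (mul_eq_zero.1 this).resolve_left hne
    · apply hz2
      rw [h2] at hzz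
      have : 2 * bl F w nu ^ 2 * bl F z z = 0 := by linear_combination hzz
      exact (mul_eq_zero.1 this).resolve_left hne

end Pool.Agent.Lib.MP42.QB
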