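import Pool.Agent.Lib.MP_42de19_nt.QB.Defs

set_option autoImplicit false

/-! Quadric bundles (MP_42de19_nt), piece B4: a rational frame at a rational good point, and the
criterion by the Gram matrix of three vectors. -/

namespace Pool.Agent.Lib.MP42.QB

open Topology Filter Set
open Pool.Agent.Lib.MP42.CubicHyp (castV ratV dense_ratV)

variable {N : ℕ}

private theorem fr_bl_single {K : Type*} [CommRing K] (M : Matrix (Fin N) (Fin N) K)
    (v : Fin N → K) (w : Fin N → K) :
    bl M v w = ∑ j, w j * bl M v (Pi.single j 1) := by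
  have h : ∀ j, bl M v (Pi.single j 1) = ∑ i, M i j * v i := by
    intro j
    unfold bl
    refine Finset.sum_congr rfl fun i _ => ?_
    rw [Finset.sum_eq_single j]
    · rw [Pi.single_eq_same, mul_one]
    · intro l _ hl
      rw [Pi.single_eq_of_ne hl, mul_zero]
    · intro hj
      exact absurd (Finset.mem_univ j) hj
  simp_rw [h, Finset.mul_sum]
  unfold bl
  rw [Finset.sum_comm]
  refine Finset.sum_congr rfl fun j _ => Finset.sum_congr rfl fun i _ => ?_
  ring

private theorem fr_bl_cont (M : Matrix (Fin N) (Fin N) ℝ) (f g : (Fin N → ℝ) → (Fin N → ℝ))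
    (hf : Continuous f) (hg : Continuous g) : Continuous fun x => bl M (f x) (g x) := by
  unfold bl
  fun_prop

private theorem fr_exists_nu {A : Matrix (Fin N) (Fin N) ℚ} {v₀ : Fin N → ℚ} {w : Fin N → ℝ}
    (h : bl (castM A) (castV v₀) w ≠ 0) : ∃ nu : Fin N → ℚ, bl A v₀ nu ≠ 0 := by
  by_contra hcon
  push Not at hcon
  refine h ?_
  rw [fr_bl_single]
  refine Finset.sum_eq_zero fun j _ => ?_
  have e : (Pi.single j 1 : Fin N → ℝ) = castV (Pi.single j 1) := by
    funext i
    unfold castV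
    by_cases hij : i = j
    · subst hij
      simp
    · rw [Pi.single_eq_of_ne hij, Pi.single_eq_of_ne hij, Rat.cast_zero]
  rw [e, bl_cast, hcon, Rat.cast_zero, mul_zero]

/-- a rational good point: the form is `q (y² - x w)` on a rational space of dimension three -/
theorem exists_frame {A : Matrix (Fin N) (Fin N) ℚ} (hA : A.IsSymm) {v₀ : Fin N → ℚ}
    (h : Good (castM A) (castV v₀)) : ∃ (e : Fin 3 → Fin N → ℚ) (q : ℚ), q ≠ 0 ∧
      ∀ x y w : ℚ, bl A (x • e 0 + y • e 1 + w • e 2) (x • e 0 + y • e 1 + w • e 2) =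
        q * (y ^ 2 - x * w) := by
  obtain ⟨h0, ⟨w, hw⟩, z, hz, hz'⟩ := h
  have h0' : bl A v₀ v₀ = 0 := by
    rw [bl_cast] at h0
    exact_mod_cast h0
  obtain ⟨nu, hnu⟩ := fr_exists_nu hw
  have hnuR : bl (castM A) (castV v₀) (castV nu) ≠ 0 := by
    rw [bl_cast]
    exact_mod_cast hnu
  set m : ℝ := bl (castM A) (castV v₀) (castV nu) with hm
  -- a rational vector orthogonal to `v₀` of nonzero value
  obtain ⟨z1, hz1, hz1'⟩ : ∃ z1 : Fin N → ℚ, bl A v₀ z1 = 0 ∧ bl A z1 z1 ≠ 0 := by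
    have hc1 : Continuous fun x : Fin N → ℝ =>
        x - (bl (castM A) (castV v₀) x / m) • castV nu := by
      have : Continuous fun x : Fin N → ℝ => bl (castM A) (castV v₀) x :=
        fr_bl_cont _ _ _ continuous_const continuous_id
      fun_prop
    have hc : Continuous fun x : Fin N → ℝ =>
        bl (castM A) (x - (bl (castM A) (castV v₀) x / m) • castV nu)
          (x - (bl (castM A) (castV v₀) x / m) • castV nu) := fr_bl_cont _ _ _ hc1 hc1
    have hz0 : bl (castM A) (z - (bl (castM A) (castV v₀) z / m) • castV nu)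
          (z - (bl (castM A) (castV v₀) z / m) • castV nu) ≠ 0 := by
      rw [hz, zero_div, zero_smul, sub_zero]
      exact hz'
    have hopen : IsOpen {x : Fin N → ℝ |
        bl (castM A) (x - (bl (castM A) (castV v₀) x / m) • castV nu)
          (x - (bl (castM A) (castV v₀) x / m) • castV nu) ≠ 0} :=
      isOpen_ne_fun hc continuous_const
    obtain ⟨x, hx, hxr⟩ := (dense_ratV N).exists_mem_open hopen ⟨z, hz0⟩
    obtain ⟨r, rfl⟩ := hx
    have e : castV r - (bl (castM A) (castV v₀) (castV r) / m) • castV nu =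
        castV (r - (bl A v₀ r / bl A v₀ nu) • nu) := by
      rw [hm, bl_cast, bl_cast]
      funext i
      simp only [castV, Pi.sub_apply, Pi.smul_apply, smul_eq_mul]
      push_cast
      rfl
    refine ⟨r - (bl A v₀ r / bl A v₀ nu) • nu, ?_, ?_⟩
    · rw [bl_sub_right, bl_smul_right, div_mul_cancel₀ _ hnu, sub_self]
    · have h2 : bl (castM A) (castV r - (bl (castM A) (castV v₀) (castV r) / m) • castV nu)
          (castV r - (bl (castM A) (castV v₀) (castV r) / m) • castV nu) ≠ 0 := hxr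
      rw [e, bl_cast] at h2
      exact_mod_cast h2
  set q : ℚ := bl A z1 z1 with hq
  set nu' : Fin N → ℚ := nu - (bl A nu z1 / q) • z1 with hnu'
  have a1 : bl A nu' z1 = 0 := by
    rw [hnu', bl_sub_left, bl_smul_left, ← hq, div_mul_cancel₀ _ hz1', sub_self]
  have a2 : bl A v₀ nu' = bl A v₀ nu := by
    rw [hnu', bl_sub_right, bl_smul_right, hz1, mul_zero, sub_zero]
  set k : ℚ := bl A v₀ nu with hk
  set c : ℚ := -q / (2 * k) with hc
  set d : ℚ := -(c * bl A nu' nu') / (2 * k) with hd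
  set e2 : Fin N → ℚ := c • nu' + d • v₀ with he2
  have b1 : bl A v₀ e2 = -q / 2 := by
    rw [he2, bl_add_right, bl_smul_right, bl_smul_right, h0', a2, hc]
    field_simp
    ring
  have b2 : bl A z1 e2 = 0 := by
    rw [he2, bl_add_right, bl_smul_right, bl_smul_right, bl_comm hA z1 nu', a1,
      bl_comm hA z1 v₀, hz1]
    ring
  have b3 : bl A e2 e2 = 0 := by
    rw [he2]
    simp only [bl_add_left, bl_add_right, bl_smul_left, bl_smul_right]
    rw [h0', a2, bl_comm hA nu' v₀, a2, hd]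
    field_simp
    ring
  refine ⟨![v₀, z1, e2], q, hz1', fun x y w => ?_⟩
  simp only [Matrix.cons_val_zero, Matrix.cons_val_one, Matrix.cons_val, bl_add_left,
    bl_add_right, bl_smul_left, bl_smul_right]
  rw [h0', hz1, bl_comm hA z1 v₀, hz1, ← hq, b1, b2, bl_comm hA e2 v₀, b1, bl_comm hA e2 z1, b2,
    b3]
  ring

private theorem fr_gram_id (a b c d e f x y z u v w : ℝ) :
    let p0 := a * x + b * y + c * z
    let p1 := b * x + d * y + e * z
    let p2 := c * x + e * y + f * z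
    let r0 := a * u + b * v + c * w
    let r1 := b * u + d * v + e * w
    let r2 := c * u + e * v + f * w
    let z0 := p1 * r2 - p2 * r1
    let z1 := p2 * r0 - p0 * r2
    let z2 := p0 * r1 - p1 * r0
    z0 * (a * z0 + b * z1 + c * z2) + z1 * (b * z0 + d * z1 + e * z2) +
      z2 * (c * z0 + e * z1 + f * z2) =
      (a * (d * f - e ^ 2) - b * (b * f - c * e) + c * (b * e - c * d)) *
        ((x * p0 + y * p1 + z * p2) * (u * r0 + v * r1 + w * r2) -
          (x * r0 + y * r1 + z * r2) ^ 2) := by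
  intro p0 p1 p2 r0 r1 r2 z0 z1 z2
  simp only [p0, p1, p2, r0, r1, r2, z0, z1, z2]
  ring

/-- if the form is nondegenerate on the span of three vectors, every nontrivial zero in this span
is good -/
theorem good_of_gram {F : Matrix (Fin N) (Fin N) ℝ} (hF : F.IsSymm) (e : Fin 3 → Fin N → ℝ)
    (hdet : (Matrix.of fun i j => bl F (e i) (e j)).det ≠ 0) {c : Fin 3 → ℝ} (hc : c ≠ 0)
    (h : bl F (∑ i, c i • e i) (∑ i, c i • e i) = 0) : Good F (∑ i, c i • e i) := by
  set G : Matrix (Fin 3) (Fin 3) ℝ := Matrix.of fun i j => bl F (e i) (e j) with hG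
  set v : Fin N → ℝ := ∑ i, c i • e i with hv
  have hGa : ∀ i j, bl F (e i) (e j) = G i j := fun i j => rfl
  have hs10 : G 1 0 = G 0 1 := bl_comm hF _ _
  have hs20 : G 2 0 = G 0 2 := bl_comm hF _ _
  have hs21 : G 2 1 = G 1 2 := bl_comm hF _ _
  -- values against the frame
  have hval : ∀ (s : Fin 3 → ℝ) (y : Fin N → ℝ),
      bl F (∑ i, s i • e i) y = s 0 * bl F (e 0) y + s 1 * bl F (e 1) y + s 2 * bl F (e 2) y := by
    intro s y
    rw [Fin.sum_univ_three, bl_add_left, bl_add_left, bl_smul_left, bl_smul_left, bl_smul_left]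
  have hval' : ∀ (s : Fin 3 → ℝ) (y : Fin N → ℝ),
      bl F y (∑ i, s i • e i) = s 0 * bl F y (e 0) + s 1 * bl F y (e 1) + s 2 * bl F y (e 2) := by
    intro s y
    rw [Fin.sum_univ_three, bl_add_right, bl_add_right, bl_smul_right, bl_smul_right,
      bl_smul_right]
  set g : Fin 3 → ℝ := fun j => bl F v (e j) with hg
  have hg' : ∀ j, g j = c 0 * G 0 j + c 1 * G 1 j + c 2 * G 2 j := by
    intro j
    rw [hg]
    exact hval c (e j)
  have hgne : g ≠ 0 := by
    intro h0
    refine hc (Matrix.eq_zero_of_mulVec_eq_zero hdet ?_)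
    funext i
    rw [Matrix.mulVec, dotProduct, Fin.sum_univ_three]
    have h1 := congrFun h0 i
    rw [hg' i] at h1
    have hsym : ∀ i j, G i j = G j i := fun i j => bl_comm hF _ _
    rw [hsym i 0, hsym i 1, hsym i 2]
    simp only [Pi.zero_apply] at h1 ⊢
    linarith
  have hcg : c 0 * g 0 + c 1 * g 1 + c 2 * g 2 = 0 := by
    have h1 : bl F v v = c 0 * g 0 + c 1 * g 1 + c 2 * g 2 := hval' c v
    rw [← h1]
    exact h
  refine ⟨h, ?_, ?_⟩
  · obtain ⟨j, hj⟩ := Function.ne_iff.1 hgne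
    exact ⟨e j, hj⟩
  · -- the vector `g × G g`
    set r : Fin 3 → ℝ := fun j => g 0 * G 0 j + g 1 * G 1 j + g 2 * G 2 j with hr
    set z : Fin 3 → ℝ := ![g 1 * r 2 - g 2 * r 1, g 2 * r 0 - g 0 * r 2, g 0 * r 1 - g 1 * r 0]
      with hz
    have hz0 : z 0 = g 1 * r 2 - g 2 * r 1 := rfl
    have hz1 : z 1 = g 2 * r 0 - g 0 * r 2 := rfl
    have hz2 : z 2 = g 0 * r 1 - g 1 * r 0 := rfl
    refine ⟨∑ i, z i • e i, ?_, ?_⟩
    · rw [hval']
      change z 0 * g 0 + z 1 * g 1 + z 2 * g 2 = 0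
      rw [hz0, hz1, hz2]
      ring
    · have hzz : bl F (∑ i, z i • e i) (∑ i, z i • e i) =
          z 0 * (G 0 0 * z 0 + G 0 1 * z 1 + G 0 2 * z 2) +
          z 1 * (G 0 1 * z 0 + G 1 1 * z 1 + G 1 2 * z 2) +
          z 2 * (G 0 2 * z 0 + G 1 2 * z 1 + G 2 2 * z 2) := by
        rw [hval, hval', hval', hval']
        simp only [hGa]
        rw [hs10, hs20, hs21]
        ring
      have hid := fr_gram_id (G 0 0) (G 0 1) (G 0 2) (G 1 1) (G 1 2) (G 2 2) (c 0) (c 1) (c 2)
        (g 0) (g 1) (g 2)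
      simp only at hid
      have hp0 : G 0 0 * c 0 + G 0 1 * c 1 + G 0 2 * c 2 = g 0 := by
        rw [hg' 0, hs10, hs20]; ring
      have hp1 : G 0 1 * c 0 + G 1 1 * c 1 + G 1 2 * c 2 = g 1 := by
        rw [hg' 1, hs21]; ring
      have hp2 : G 0 2 * c 0 + G 1 2 * c 1 + G 2 2 * c 2 = g 2 := by
        rw [hg' 2]; ring
      have hr0 : G 0 0 * g 0 + G 0 1 * g 1 + G 0 2 * g 2 = r 0 := by
        simp only [hr]; rw [hs10, hs20]; ring
      have hr1 : G 0 1 * g 0 + G 1 1 * g 1 + G 1 2 * g 2 = r 1 := by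
        simp only [hr]; rw [hs21]; ring
      have hr2 : G 0 2 * g 0 + G 1 2 * g 1 + G 2 2 * g 2 = r 2 := by
        simp only [hr]; ring
      rw [hp0, hp1, hp2, hr0, hr1, hr2, ← hz0, ← hz1, ← hz2, ← hzz, hcg] at hid
      have hcr : c 0 * r 0 + c 1 * r 1 + c 2 * r 2 = g 0 ^ 2 + g 1 ^ 2 + g 2 ^ 2 := by
        rw [← hr0, ← hr1, ← hr2]
        linear_combination g 0 * hp0 + g 1 * hp1 + g 2 * hp2
      rw [hcr] at hid
      have hdet' : G 0 0 * (G 1 1 * G 2 2 - G 1 2 ^ 2) - G 0 1 * (G 0 1 * G 2 2 - G 0 2 * G 1 2) +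
          G 0 2 * (G 0 1 * G 1 2 - G 0 2 * G 1 1) = G.det := by
        rw [Matrix.det_fin_three, hs10, hs20, hs21]
        ring
      rw [hdet'] at hid
      rw [hid]
      have hpos : 0 < g 0 ^ 2 + g 1 ^ 2 + g 2 ^ 2 := by
        obtain ⟨j, hj⟩ := Function.ne_iff.1 hgne
        have hj' : 0 < g j ^ 2 := by
          have : g j ≠ 0 := hj
          positivity
        fin_cases j
        · simp only [Fin.zero_eta, Fin.isValue] at hj'
          nlinarith [sq_nonneg (g 1), sq_nonneg (g 2)]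
        · simp only [Fin.mk_one, Fin.isValue] at hj'
          nlinarith [sq_nonneg (g 0), sq_nonneg (g 2)]
        · simp only [Fin.reduceFinMk, Fin.isValue] at hj'
          nlinarith [sq_nonneg (g 0), sq_nonneg (g 1)]
      have hne : g 0 ^ 2 + g 1 ^ 2 + g 2 ^ 2 ≠ 0 := hpos.ne'
      simp only [zero_mul, zero_sub]
      exact mul_ne_zero hdet (neg_ne_zero.2 (pow_ne_zero 2 hne))

end Pool.Agent.Lib.MP42.QB
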