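import Pool.Agent.Lib.MP_42de19_nt.QB.Dense

set_option autoImplicit false

/-! Quadric bundles (MP_42de19_nt), piece B3: zeros and good points of nearby forms. -/

namespace Pool.Agent.Lib.MP42.QB

open Topology Filter Set
open Pool.Agent.Lib.MP42.CubicHyp (castV ratV dense_ratV)

variable {N : ℕ}

/-- joint continuity -/
theorem continuous_bl : Continuous fun p : Matrix (Fin N) (Fin N) ℝ × (Fin N → ℝ) × (Fin N → ℝ) =>
    bl p.1 p.2.1 p.2.2 := by
  unfold bl
  refine continuous_finsetSum _ fun i _ => continuous_finsetSum _ fun j _ => ?_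
  refine ((continuous_fst.matrix_elem i j).mul ?_).mul ?_
  · exact (continuous_apply i).comp (continuous_fst.comp continuous_snd)
  · exact (continuous_apply j).comp (continuous_snd.comp continuous_snd)

/-- a nonsingular zero of `F` is close to zeros of the matrices near `F` -/
theorem eventually_zero {F : Matrix (Fin N) (Fin N) ℝ} (hF : F.IsSymm) {v : Fin N → ℝ}
    (hv : bl F v v = 0) (hv' : ∃ w, bl F v w ≠ 0) {O : Set (Fin N → ℝ)} (hO : O ∈ 𝓝 v) :
    ∀ᶠ G in 𝓝 F, ∃ w ∈ O, bl G w w = 0 := by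
  obtain ⟨ν, hν⟩ := hv'
  have hline : Continuous fun e : ℝ => v + e • ν := by fun_prop
  have h1 : ∀ᶠ e in 𝓝 (0 : ℝ), v + e • ν ∈ O := by
    apply hline.continuousAt.eventually
    simpa using hO
  have h2 : ∀ᶠ e in 𝓝 (0 : ℝ), |e * bl F ν ν| < |2 * bl F v ν| := by
    have h3 : Continuous fun e : ℝ => |e * bl F ν ν| := by fun_prop
    have h4 : (fun e : ℝ => |e * bl F ν ν|) 0 < |2 * bl F v ν| := by
      simp only [zero_mul, abs_zero]
      exact abs_pos.2 (mul_ne_zero two_ne_zero hν)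
    exact h3.continuousAt.eventually_lt continuousAt_const h4
  obtain ⟨r, hr, hball⟩ := Metric.eventually_nhds_iff.1 (h1.and h2)
  set e₀ := r / 2 with he₀
  have he0 : 0 < e₀ := by positivity
  have hin : ∀ e : ℝ, |e| ≤ e₀ → v + e • ν ∈ O ∧ |e * bl F ν ν| < |2 * bl F v ν| := by
    intro e he
    apply hball
    rw [Real.dist_eq, sub_zero]
    linarith
  have hg : ∀ G : Matrix (Fin N) (Fin N) ℝ, Continuous fun e : ℝ => bl G (v + e • ν) (v + e • ν) :=
    fun G => (b2_cont G).comp (hline.prodMk hline)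
  have hval : ∀ e : ℝ, bl F (v + e • ν) (v + e • ν) = e * (2 * bl F v ν + e * bl F ν ν) := by
    intro e
    simp only [bl_add_left, bl_add_right, bl_smul_left, bl_smul_right]
    rw [hv, bl_comm hF ν v]
    ring
  have hneg : bl F (v + e₀ • ν) (v + e₀ • ν) * bl F (v + (-e₀) • ν) (v + (-e₀) • ν) < 0 := by
    rw [hval, hval]
    have h3 := (hin e₀ (by rw [abs_of_pos he0])).2
    have h4 : (e₀ * bl F ν ν) ^ 2 < (2 * bl F v ν) ^ 2 := sq_lt_sq.2 h3
    have h5 : e₀ * (2 * bl F v ν + e₀ * bl F ν ν) * (-e₀ * (2 * bl F v ν + -e₀ * bl F ν ν)) =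
        -(e₀ ^ 2 * ((2 * bl F v ν) ^ 2 - (e₀ * bl F ν ν) ^ 2)) := by ring
    rw [h5]
    have h6 : 0 < e₀ ^ 2 * ((2 * bl F v ν) ^ 2 - (e₀ * bl F ν ν) ^ 2) :=
      mul_pos (by positivity) (by linarith)
    linarith
  have hGc : Continuous fun G : Matrix (Fin N) (Fin N) ℝ =>
      bl G (v + e₀ • ν) (v + e₀ • ν) * bl G (v + (-e₀) • ν) (v + (-e₀) • ν) := by
    have h3 : ∀ u : Fin N → ℝ, Continuous fun G : Matrix (Fin N) (Fin N) ℝ => bl G u u := by
      intro u
      have h4 : Continuous fun G : Matrix (Fin N) (Fin N) ℝ => (G, u, u) :=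
        continuous_id.prodMk (continuous_const.prodMk continuous_const)
      exact continuous_bl.comp h4
    exact (h3 _).mul (h3 _)
  have hev : ∀ᶠ G in 𝓝 F, bl G (v + e₀ • ν) (v + e₀ • ν) *
      bl G (v + (-e₀) • ν) (v + (-e₀) • ν) < 0 :=
    hGc.continuousAt.eventually_lt continuousAt_const hneg
  filter_upwards [hev] with G hG
  have hle : -e₀ ≤ e₀ := by linarith
  have h0 : (0 : ℝ) ∈ (fun e : ℝ => bl G (v + e • ν) (v + e • ν)) '' Icc (-e₀) e₀ := by
    rcases mul_neg_iff.1 hG with ⟨ha, hb⟩ | ⟨ha, hb⟩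
    · exact intermediate_value_Icc hle (hg G).continuousOn ⟨hb.le, ha.le⟩
    · exact intermediate_value_Icc' hle (hg G).continuousOn ⟨ha.le, hb.le⟩
  obtain ⟨e, he, he'⟩ := h0
  exact ⟨v + e • ν, (hin e (abs_le.2 he)).1, he'⟩

/-- being good is an open condition -/
theorem eventually_good {F : Matrix (Fin N) (Fin N) ℝ} {v : Fin N → ℝ} (hv : Good F v) :
    ∀ᶠ p : Matrix (Fin N) (Fin N) ℝ × (Fin N → ℝ) in 𝓝 (F, v),
      bl p.1 p.2 p.2 = 0 → Good p.1 p.2 := by
  obtain ⟨-, ⟨ν, hν⟩, z, hz0, hz1⟩ := hv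
  have hc : ∀ x : Fin N → ℝ, Continuous fun p : Matrix (Fin N) (Fin N) ℝ × (Fin N → ℝ) =>
      bl p.1 p.2 x := fun x =>
    continuous_bl.comp (continuous_fst.prodMk (continuous_snd.prodMk continuous_const))
  have h1 : ∀ᶠ p : Matrix (Fin N) (Fin N) ℝ × (Fin N → ℝ) in 𝓝 (F, v), bl p.1 p.2 ν ≠ 0 :=
    (hc ν).continuousAt.eventually_ne hν
  set zz : Matrix (Fin N) (Fin N) ℝ × (Fin N → ℝ) → Fin N → ℝ := fun p =>
    z - (bl p.1 p.2 z / bl p.1 p.2 ν) • ν with hzz
  have hzc : ContinuousAt zz (F, v) := by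
    rw [hzz]
    exact continuousAt_const.sub (((hc z).continuousAt.div (hc ν).continuousAt hν).smul
      continuousAt_const)
  have hzv : zz (F, v) = z := by
    simp only [hzz, hz0, zero_div, zero_smul, sub_zero]
  have hzo : ∀ p, bl p.1 p.2 ν ≠ 0 → bl p.1 p.2 (zz p) = 0 := by
    intro p hp
    simp only [hzz, bl_sub_right, bl_smul_right]
    field_simp
    ring
  clear_value zz
  have h2 : ContinuousAt (fun p : Matrix (Fin N) (Fin N) ℝ × (Fin N → ℝ) =>
      bl p.1 (zz p) (zz p)) (F, v) := by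
    have h3 : ContinuousAt (fun p : Matrix (Fin N) (Fin N) ℝ × (Fin N → ℝ) =>
        (p.1, zz p, zz p)) (F, v) := continuousAt_fst.prodMk (hzc.prodMk hzc)
    exact ContinuousAt.comp (g := fun q : Matrix (Fin N) (Fin N) ℝ × (Fin N → ℝ) × (Fin N → ℝ) =>
      bl q.1 q.2.1 q.2.2) (f := fun p : Matrix (Fin N) (Fin N) ℝ × (Fin N → ℝ) =>
        (p.1, zz p, zz p)) continuous_bl.continuousAt h3
  have h4 : ∀ᶠ p : Matrix (Fin N) (Fin N) ℝ × (Fin N → ℝ) in 𝓝 (F, v),
      bl p.1 (zz p) (zz p) ≠ 0 := h2.eventually_ne (by rw [hzv]; exact hz1)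
  filter_upwards [h1, h4] with p hp1 hp2 hp0
  exact ⟨hp0, ⟨ν, hp1⟩, zz p, hzo p hp1, hp2⟩

/-- (uses [B2]) rational good points near a real good point, in families -/
theorem exists_rat_good {T : Type*} [TopologicalSpace T] {F : T → Matrix (Fin N) (Fin N) ℝ}
    {t₀ : T} (hF : ContinuousAt F t₀) (hs : ∀ t, (F t).IsSymm) {v₀ : Fin N → ℝ}
    (h0 : Good (F t₀) v₀) {O : Set (Fin N → ℝ)} (hO : O ∈ 𝓝 v₀) :
    ∀ᶠ t in 𝓝 t₀, (∃ A : Matrix (Fin N) (Fin N) ℚ, F t = castM A) →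
      (∃ v : Fin N → ℚ, Good (F t) (castV v)) → ∃ v : Fin N → ℚ, castV v ∈ O ∧
        Good (F t) (castV v) := by
  have h1 := eventually_good h0
  rw [nhds_prod_eq, Filter.eventually_prod_iff] at h1
  obtain ⟨p, hp, q, hq, hpq⟩ := h1
  have hO1 : {x | q x ∧ x ∈ O} ∈ 𝓝 v₀ := hq.and hO
  obtain ⟨O₁, hO₁, hO₁o, hv₁⟩ := mem_nhds_iff.1 hO1
  have h2 := eventually_zero (hs t₀) h0.1 h0.2.1 (hO₁o.mem_nhds hv₁)
  filter_upwards [hF.eventually h2, hF.eventually hp] with t ht hpt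
  rintro ⟨A, hA⟩ ⟨v, hv⟩
  obtain ⟨w, hwO, hw0⟩ := ht
  have hwg : Good (F t) w := hpq hpt (hO₁ hwO).1 hw0
  have hAs : A.IsSymm := by
    have h3 := hs t
    rw [hA] at h3
    refine Matrix.IsSymm.ext fun i j => ?_
    have h4 := h3.apply i j
    simp only [castM, Matrix.map_apply] at h4
    exact_mod_cast h4
  rw [hA] at hv hwg
  have hv0 : bl A v v = 0 := by
    have h3 := hv.1
    rw [bl_cast] at h3
    exact_mod_cast h3
  have hv1 : ∃ x, bl A v x ≠ 0 := by
    by_contra hcon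
    push Not at hcon
    obtain ⟨x, hx⟩ := hv.2.1
    have hcl : ∀ x : Fin N → ℝ, bl (castM A) (castV v) x = 0 := by
      have hcont : Continuous fun x => bl (castM A) (castV v) x :=
        (b2_cont (castM A)).comp (continuous_const.prodMk continuous_id)
      have heq : (fun x => bl (castM A) (castV v) x) = fun _ => 0 := by
        refine Continuous.ext_on (dense_ratV N) hcont continuous_const ?_
        rintro _ ⟨y, rfl⟩
        show bl (castM A) (castV v) (castV y) = 0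
        rw [bl_cast, hcon y, Rat.cast_zero]
      intro x
      exact congrFun heq x
    exact hx (hcl x)
  obtain ⟨v', hv'O, hv'0⟩ := exists_rat_zero hAs hv0 hv1 hwg (hO₁o.mem_nhds hwO)
  refine ⟨v', (hO₁ hv'O).2, ?_⟩
  apply hpq hpt (hO₁ hv'O).1
  rw [hA, bl_cast, hv'0, Rat.cast_zero]

end Pool.Agent.Lib.MP42.QB
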