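import Pool.Agent.Lib.MP_42de19_nt.QB.DefsB
import Pool.Agent.Lib.MP_42de19_nt.QB.Near

set_option autoImplicit false

/-! Quadric bundles (MP_42de19_nt), piece E2: the closure of the rational parameters with a
rational good point is open in the set of the parameters with a real good point. -/

namespace Pool.Agent.Lib.MP42.QB

open Topology Filter Set
open Pool.Agent.Lib.MP42.CubicHyp (castV ratV dense_ratV)

private theorem bx_cont {N k : ℕ} (M : Matrix (Fin N) (Fin N) (MvPolynomial (Fin k) ℚ)) :
    Continuous (Mt M) := by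
  refine continuous_matrix fun i j => ?_
  have h : (fun t : Fin k → ℝ => Mt M t i j) =
      fun t => MvPolynomial.eval t (MvPolynomial.map (algebraMap ℚ ℝ) (M i j)) := by
    funext t
    rw [MvPolynomial.eval_map]
    rfl
  rw [h]
  exact MvPolynomial.continuous_eval _

theorem isOpen_Um {N k : ℕ} {M : Matrix (Fin N) (Fin N) (MvPolynomial (Fin k) ℚ)}
    (hM : M.IsSymm) : IsOpen (Um M) := by
  rw [isOpen_iff_mem_nhds]
  rintro t₀ ⟨v₀, h0⟩
  have h1 := eventually_good h0
  rw [nhds_prod_eq, Filter.eventually_prod_iff] at h1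
  obtain ⟨p, hp, q, hq, hpq⟩ := h1
  have h2 := eventually_zero (Mt_symm hM t₀) h0.1 h0.2.1 hq
  have hF : ContinuousAt (Mt M) t₀ := (bx_cont M).continuousAt
  filter_upwards [hF.eventually h2, hF.eventually hp] with t ht hpt
  obtain ⟨w, hw, hw0⟩ := ht
  exact ⟨w, hpq hpt hw hw0⟩

private theorem bx_update {k : ℕ} (t : Fin k → ℝ) (l : Fin k) {a b s s' : ℝ} (hab : a + b = 1) :
    Function.update t l (a * s + b * s') =
      a • Function.update t l s + b • Function.update t l s' := by
  funext i
  by_cases hi : i = l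
  · subst hi
    simp
  · simp only [Pi.add_apply, Pi.smul_apply, Function.update_of_ne hi, smul_eq_mul]
    rw [← add_mul, hab, one_mul]

private theorem bx_line {N k : ℕ} {M : Matrix (Fin N) (Fin N) (MvPolynomial (Fin k) ℚ)}
    {A B C : Matrix (Fin N) (Fin N) ℚ} (hcore : IsOpen (closure (Sg A B C) ∩ UU A B C))
    {t : Fin k → ℝ} {l : Fin k} (hpen : ∀ s : ℝ, Mt M (Function.update t l s) = pen A B C s)
    (ht : t ∈ Sm M) {O : Set (Fin k → ℝ)} (hO : Convex ℝ O) (hOU : O ⊆ Um M) (htO : t ∈ O)
    {s' : ℝ} (hs' : Function.update t l s' ∈ O) : Function.update t l s' ∈ closure (Sm M) := by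
  have hJ : Convex ℝ {s : ℝ | Function.update t l s ∈ O} := by
    intro s hs s₁ hs₁ a b ha hb hab
    show Function.update t l (a * s + b * s₁) ∈ O
    rw [bx_update t l hab]
    exact hO hs hs₁ ha hb hab
  have hmem : t l ∈ Sg A B C := by
    obtain ⟨⟨q, hq⟩, v, hv⟩ := ht
    refine ⟨⟨q l, by rw [← hq]; rfl⟩, v, ?_⟩
    rw [← hpen, Function.update_eq_self]
    exact hv
  have hsub : {s : ℝ | Function.update t l s ∈ O} ⊆ UU A B C := by
    intro s hs
    obtain ⟨v, hv⟩ := hOU hs
    rw [hpen] at hv
    exact ⟨v, hv⟩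
  have htl : t l ∈ {s : ℝ | Function.update t l s ∈ O} := by
    show Function.update t l (t l) ∈ O
    rw [Function.update_eq_self]
    exact htO
  have h1 : {s : ℝ | Function.update t l s ∈ O} ⊆ closure (Sg A B C) ∩ UU A B C := by
    refine hJ.isPreconnected.subset_of_closure_inter_subset hcore
      ⟨t l, htl, subset_closure hmem, hsub htl⟩ ?_
    rintro s ⟨hs, hs2⟩
    refine ⟨?_, hsub hs2⟩
    have h2 : closure (closure (Sg A B C) ∩ UU A B C) ⊆ closure (Sg A B C) :=
      closure_minimal inter_subset_left isClosed_closure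
    exact h2 hs
  have h3 : Continuous fun s : ℝ => Function.update t l s :=
    continuous_const.update l continuous_id
  refine map_mem_closure h3 (h1 hs').1 ?_
  rintro s ⟨⟨r, hr⟩, v, hv⟩
  obtain ⟨⟨q, hq⟩, -⟩ := ht
  refine ⟨⟨Function.update q l r, ?_⟩, v, ?_⟩
  · funext i
    by_cases hi : i = l
    · subst hi
      simp [castV, hr]
    · simp only [castV, Function.update_of_ne hi]
      rw [← hq]
      rfl
  · show Good (Mt M (Function.update t l s)) (castV v)
    rw [hpen]
    exact hv

private theorem bx_line' {N k : ℕ} {M : Matrix (Fin N) (Fin N) (MvPolynomial (Fin k) ℚ)}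
    {O : Set (Fin k → ℝ)} (hOo : IsOpen O) {l : Fin k}
    (h : ∀ t ∈ Sm M, t ∈ O → ∀ s' : ℝ, Function.update t l s' ∈ O →
      Function.update t l s' ∈ closure (Sm M)) {t : Fin k → ℝ} (ht : t ∈ closure (Sm M))
    (htO : t ∈ O) {s' : ℝ} (hs' : Function.update t l s' ∈ O) :
    Function.update t l s' ∈ closure (Sm M) := by
  have hc : Continuous fun x : Fin k → ℝ => Function.update x l s' :=
    continuous_id.update l continuous_const
  have h1 : ∀ᶠ x in 𝓝 t, x ∈ O ∧ Function.update x l s' ∈ O :=
    (Filter.Eventually.and (hOo.mem_nhds htO) (hc.continuousAt.eventually (hOo.mem_nhds hs')))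
  have h2 : ∃ᶠ x in 𝓝 t, Function.update x l s' ∈ closure (Sm M) :=
    ((mem_closure_iff_frequently.1 ht).and_eventually h1).mono fun x hx =>
      h x hx.1 hx.2.1 s' hx.2.2
  have h3 : Function.update t l s' ∈ closure (closure (Sm M)) :=
    mem_closure_of_frequently_of_tendsto h2 hc.continuousAt
  rwa [closure_closure] at h3

/-- the box argument, for a family all of whose coordinate lines are good pencils -/
theorem box_of {N k : ℕ} {M : Matrix (Fin N) (Fin N) (MvPolynomial (Fin k) ℚ)} (hM : M.IsSymm)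
    (h : ∀ t ∈ ratV k, ∀ l : Fin k, ∃ A B C : Matrix (Fin N) (Fin N) ℚ,
      IsOpen (closure (Sg A B C) ∩ UU A B C) ∧
        ∀ s : ℝ, Mt M (Function.update t l s) = pen A B C s) :
    IsOpen (closure (Sm M) ∩ Um M) := by
  rw [Metric.isOpen_iff]
  rintro x ⟨hx, hxU⟩
  obtain ⟨ε, hε, hball⟩ := Metric.isOpen_iff.1 (isOpen_Um hM) x hxU
  refine ⟨ε, hε, fun y hy => ⟨?_, hball hy⟩⟩
  have hstep : ∀ l : Fin k, ∀ t ∈ Sm M, t ∈ Metric.ball x ε → ∀ s' : ℝ,
      Function.update t l s' ∈ Metric.ball x ε → Function.update t l s' ∈ closure (Sm M) := by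
    intro l t ht htO s' hs'
    obtain ⟨A, B, C, hcore, hpen⟩ := h t ht.1 l
    exact bx_line hcore hpen ht (convex_ball x ε) hball htO hs'
  have hmem : ∀ s : Finset (Fin k), s.piecewise y x ∈ Metric.ball x ε := by
    intro s
    rw [Metric.mem_ball] at hy ⊢
    refine lt_of_le_of_lt ?_ hy
    rw [dist_pi_le_iff dist_nonneg]
    intro i
    by_cases hi : i ∈ s
    · rw [Finset.piecewise_eq_of_mem _ _ _ hi]
      exact dist_le_pi_dist y x i
    · rw [Finset.piecewise_eq_of_notMem _ _ _ hi, dist_self]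
      exact dist_nonneg
  have hall : ∀ s : Finset (Fin k), s.piecewise y x ∈ closure (Sm M) := by
    intro s
    induction s using Finset.induction_on with
    | empty => simpa using hx
    | insert l s _ ih =>
      rw [Finset.piecewise_insert]
      refine bx_line' Metric.isOpen_ball (hstep l) ih (hmem s) ?_
      have h4 := hmem (insert l s)
      rwa [Finset.piecewise_insert] at h4
  have h5 := hall Finset.univ
  rwa [Finset.piecewise_univ] at h5

end Pool.Agent.Lib.MP42.QB
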