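import Pool.Agent.Lib.MP_42de19_nt.QB.Defs
import Pool.Agent.Lib.MP_42de19_nt.Quar.Main

set_option autoImplicit false

/-! The discriminant of a quadratic pencil of quadratic forms as a quartic form, and openness of
the closure of the rational points for quartics with interior. -/

namespace Pool.Agent.Lib.MP42.QB

open Topology Filter Set
open Pool.Agent.Lib.MP42.CubicHyp (castV ratV dense_ratV)

variable {N : ℕ}

/-! ### the discriminant -/

section sums

variable (X Y : Matrix (Fin N) (Fin N) ℝ) (v : Fin N → ℝ)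

private theorem sum1 : ∑ i, ∑ j, ∑ k, ∑ l, X i j * Y k l * (v i * v j * v k * v l) =
    bl X v v * bl Y v v := by
  unfold bl
  rw [Finset.sum_mul]
  refine Finset.sum_congr rfl fun i _ => ?_
  rw [Finset.sum_mul]
  refine Finset.sum_congr rfl fun j _ => ?_
  rw [Finset.mul_sum]
  refine Finset.sum_congr rfl fun k _ => ?_
  rw [Finset.mul_sum]
  refine Finset.sum_congr rfl fun l _ => ?_
  ring

private theorem sum2 : ∑ i, ∑ j, ∑ k, ∑ l, X i k * Y j l * (v i * v j * v k * v l) =
    bl X v v * bl Y v v := by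
  rw [← sum1]
  refine Finset.sum_congr rfl fun i _ => ?_
  rw [Finset.sum_comm]
  refine Finset.sum_congr rfl fun j _ => Finset.sum_congr rfl fun k _ =>
    Finset.sum_congr rfl fun l _ => ?_
  ring

private theorem sum3 : ∑ i, ∑ j, ∑ k, ∑ l, X i l * Y j k * (v i * v j * v k * v l) =
    bl X v v * bl Y v v := by
  rw [← sum2]
  refine Finset.sum_congr rfl fun i _ => Finset.sum_congr rfl fun j _ => ?_
  rw [Finset.sum_comm]
  refine Finset.sum_congr rfl fun k _ => Finset.sum_congr rfl fun l _ => ?_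
  ring

end sums

/-- the discriminant of a pencil as a quartic form -/
theorem exists_quar {A B C : Matrix (Fin N) (Fin N) ℚ} (hA : A.IsSymm) (hB : B.IsSymm)
    (hC : C.IsSymm) : ∃ T : Quar.SymT4 N, ∀ v : Fin N → ℝ, (Quar.quar T).F v =
      (bl (castM B) v v) ^ 2 - 4 * bl (castM A) v v * bl (castM C) v v := by
  have a := hA.apply
  have b := hB.apply
  have c := hC.apply
  refine ⟨{ T := fun i j k l => (B i j * B k l + B i k * B j l + B i l * B j k) / 3 -
              2 / 3 * (A i j * C k l + A k l * C i j + A i k * C j l + A j l * C i k +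
                A i l * C j k + A j k * C i l)
            s12 := ?_
            s23 := ?_
            s34 := ?_ }, ?_⟩
  · intro i j k l
    rw [a j i, b j i, c j i]
    ring
  · intro i j k l
    rw [a k j, b k j, c k j]
    ring
  · intro i j k l
    rw [a l k, b l k, c l k]
    ring
  · intro v
    show (Quar.quar _).B v v v v = _
    rw [Quar.quar_B]
    have key : ∀ i j k l : Fin N, (((B i j * B k l + B i k * B j l + B i l * B j k) / 3 -
              2 / 3 * (A i j * C k l + A k l * C i j + A i k * C j l + A j l * C i k +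
                A i l * C j k + A j k * C i l) : ℚ) : ℝ) * (v i * v j * v k * v l) =
        1 / 3 * (castM B i j * castM B k l * (v i * v j * v k * v l)) +
        1 / 3 * (castM B i k * castM B j l * (v i * v j * v k * v l)) +
        1 / 3 * (castM B i l * castM B j k * (v i * v j * v k * v l)) -
        2 / 3 * (castM A i j * castM C k l * (v i * v j * v k * v l)) -
        2 / 3 * (castM C i j * castM A k l * (v i * v j * v k * v l)) -
        2 / 3 * (castM A i k * castM C j l * (v i * v j * v k * v l)) -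
        2 / 3 * (castM C i k * castM A j l * (v i * v j * v k * v l)) -
        2 / 3 * (castM A i l * castM C j k * (v i * v j * v k * v l)) -
        2 / 3 * (castM C i l * castM A j k * (v i * v j * v k * v l)) := by
      intro i j k l
      simp only [castM, Matrix.map_apply]
      push_cast
      ring
    simp only [key, Finset.sum_add_distrib, Finset.sum_sub_distrib, ← Finset.mul_sum]
    rw [sum1, sum2, sum3, sum1, sum1, sum2, sum2, sum3, sum3]
    ring

/-! ### openness -/

section sp

variable {V : Type*} [NormedAddCommGroup V] [NormedSpace ℝ V] (D : Quar.QuarData V)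

/-- two special points (copied from `Quar/AllSpecial.lean`) -/
private theorem sp_lemma {P R : V} (hP : D.F P ≠ 0) (h1 : D.A P R = 0) (h2 : D.A R P = 0) :
    D.c1 P R * D.A4 P R * (2 * D.c1 P R * D.c1 R P - D.F P * D.F R) = 0 := by
  have e1 : D.c3 P R = D.c1 R P := by
    unfold Quar.QuarData.c3 Quar.QuarData.c1
    rw [D.s12 P R R R, D.s23 R P R R, D.s34 R R P R]
  have e3 : D.c3 R P = D.c1 P R := by
    unfold Quar.QuarData.c3 Quar.QuarData.c1
    rw [D.s12 R P P P, D.s23 P R P P, D.s34 P P R P]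
  have e2 : D.c2 R P = D.c2 P R := by
    unfold Quar.QuarData.c2
    rw [D.s23 R R P P, D.s12 R P R P, D.s34 P R R P, D.s23 P R P R]
  unfold Quar.QuarData.A at h1 h2
  rw [e1] at h1
  rw [e3, e2] at h2
  unfold Quar.QuarData.A4 Quar.QuarData.M
  generalize D.F P = p0 at *
  generalize D.F R = r0 at *
  generalize D.c1 P R = b1 at *
  generalize D.c2 P R = b2 at *
  generalize D.c1 R P = b3 at *
  have hb : b3 = b1 * (3 * p0 * b2 - 2 * b1 ^ 2) / p0 ^ 2 := by
    field_simp
    linear_combination h1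
  have h3 : p0 ^ 4 * (r0 ^ 2 * b1 - 3 * r0 * b3 * b2 + 2 * b3 ^ 3) +
      b1 * (p0 ^ 3 * r0 - (3 * p0 * b2 - 2 * b1 ^ 2) ^ 2) * (2 * b1 * b3 - p0 * r0) = 0 := by
    rw [hb]
    field_simp
    ring
  rw [h2] at h3
  linear_combination h3

/-- if all points of `S` are special and `K` has interior then `S` is contained in `K` -/
private theorem S_subset_K [FiniteDimensional ℝ V] (hsp : ∀ P ∈ D.S, D.Special P)
    (hint : D.HasInt) : D.S ⊆ D.K := by
  obtain ⟨O, hO, ⟨o, ho⟩, hOK, hOS⟩ := hint
  -- a rational point in `O`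
  obtain ⟨P, hPO, hPX⟩ : ∃ P, P ∈ O ∧ P ∈ D.ratX := by
    obtain ⟨P, hP⟩ := mem_closure_iff.mp (hOK ho) O hO ho
    exact ⟨P, hP⟩
  have hPS := hOS hPO
  have hFP := D.F_ne_of_ratX hPX
  have h4 : ∀ᶠ R in 𝓝 P, D.A4 P R = 0 := by
    have hF : Continuous fun R : V => D.F R := D.cont_F continuous_id
    have hc1 : Continuous fun R : V => D.c1 P R := D.cont_c1 continuous_const continuous_id
    have hc1' : Continuous fun R : V => D.c1 R P := D.cont_c1 continuous_id continuous_const
    have t1 : ∀ᶠ R in 𝓝 P, D.c1 P R ≠ 0 := by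
      refine (isOpen_ne.preimage hc1).mem_nhds ?_
      show D.c1 P P ≠ 0
      rw [D.c1_self]
      exact hFP
    have t2 : ∀ᶠ R in 𝓝 P, 2 * D.c1 P R * D.c1 R P - D.F P * D.F R ≠ 0 := by
      refine (isOpen_ne.preimage (((continuous_const.mul hc1).mul hc1').sub
        (continuous_const.mul hF))).mem_nhds ?_
      show 2 * D.c1 P P * D.c1 P P - D.F P * D.F P ≠ 0
      rw [D.c1_self]
      intro h5
      have h6 : D.F P * D.F P = 0 := by linear_combination h5
      exact hFP (mul_self_eq_zero.mp h6)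
    have t3 : ∀ᶠ R in 𝓝 P, R ∈ D.S := D.isOpen_S.mem_nhds hPS
    filter_upwards [t1, t2, t3] with R h1 h2 h3
    have h5 := sp_lemma D hFP (hsp P hPS R) (hsp R h3 P)
    rcases mul_eq_zero.mp h5 with h6 | h6
    · exact (mul_eq_zero.mp h6).resolve_left h1
    · exact absurd h6 h2
  obtain ⟨W, hW, hWo, hPW⟩ := eventually_nhds_iff.mp h4
  have h5 : ∀ z, D.A4 P z = 0 := Quar.QuarData.PF_zero (D.PF_A4 P) hWo ⟨P, hPW⟩ hW
  obtain ⟨hPQ, r, hr, hF⟩ := hPX
  have hr' : (r : ℝ) ≠ 0 := by exact_mod_cast hr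
  have h6 : ∀ z ∈ D.Q, D.F z ≠ 0 → z ∈ D.ratX := by
    intro z hz hFz
    obtain ⟨m, hm⟩ := D.ratQ_M hPQ hz
    have h1 : (D.F P) ^ 3 * D.F z - (D.M P z) ^ 2 = 0 := h5 z
    refine ⟨hz, m / r ^ 3, ?_, ?_⟩
    · refine div_ne_zero ?_ (pow_ne_zero 3 hr)
      rintro rfl
      rw [hm] at h1
      have h2 : (D.F P) ^ 3 * D.F z ≠ 0 := mul_ne_zero (pow_ne_zero 3 hFP) hFz
      apply h2
      rw [Rat.cast_zero] at h1
      linear_combination h1
    · rw [hF, hm] at h1
      push_cast
      field_simp
      linear_combination h1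
  intro z hz
  refine mem_closure_iff.mpr fun U hU hzU => ?_
  obtain ⟨y, hy, hyQ⟩ := D.denseQ.inter_open_nonempty (U ∩ D.S) (hU.inter D.isOpen_S) ⟨z, hzU, hz⟩
  exact ⟨y, hy.1, h6 y hyQ (ne_of_gt hy.2)⟩

end sp

/-- openness also if all points are special (then the form is a square) -/
theorem isOpen_K (T : Quar.SymT4 N) (h : (Quar.quar T).HasInt) :
    IsOpen ((Quar.quar T).K ∩ (Quar.quar T).S) := by
  by_cases hsp : ∀ P ∈ (Quar.quar T).S, (Quar.quar T).Special P
  · rw [Set.inter_eq_right.mpr (S_subset_K (Quar.quar T) hsp h)]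
    exact (Quar.quar T).isOpen_S
  · push Not at hsp
    obtain ⟨P, hP, hns⟩ := hsp
    exact (Quar.quar T).isOpen_K_inter_S h hP hns

end Pool.Agent.Lib.MP42.QB
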