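import Pool.Agent.Lib.MP_42de19_nt.QB.Defs

set_option autoImplicit false

/-! Good points and the rank. -/

namespace Pool.Agent.Lib.MP42.QB

variable {N : ℕ}

theorem bl_eq_dotProduct (F : Matrix (Fin N) (Fin N) ℝ) (v w : Fin N → ℝ) :
    bl F v w = v ⬝ᵥ F.mulVec w := by
  simp only [bl, dotProduct, Matrix.mulVec, Finset.mul_sum]
  refine Finset.sum_congr rfl fun i _ => Finset.sum_congr rfl fun j _ => ?_
  ring

private theorem mulVec_apply_eq_bl {F : Matrix (Fin N) (Fin N) ℝ} (hF : F.IsSymm)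
    (v : Fin N → ℝ) (i : Fin N) : F.mulVec v i = bl F v (Pi.single i 1) := by
  rw [bl_comm hF, bl_eq_dotProduct, single_one_dotProduct]

private theorem mulVec_ne_zero_iff {F : Matrix (Fin N) (Fin N) ℝ} (hF : F.IsSymm)
    (v : Fin N → ℝ) : F.mulVec v ≠ 0 ↔ ∃ w, bl F v w ≠ 0 := by
  constructor
  · intro h
    by_contra hc
    push Not at hc
    exact h (funext fun i => by rw [mulVec_apply_eq_bl hF, hc]; rfl)
  · rintro ⟨w, hw⟩ h
    apply hw
    rw [bl_comm hF, bl_eq_dotProduct, h, dotProduct_zero]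

private theorem three_le_rank_of_good {F : Matrix (Fin N) (Fin N) ℝ} (hF : F.IsSymm)
    {v : Fin N → ℝ} (h : Good F v) : 3 ≤ F.rank := by
  obtain ⟨hv, ⟨nu₀, hnu₀⟩, z, hz1, hz2⟩ := h
  -- make `nu` orthogonal to `z`
  obtain ⟨nu, hnu, hnz⟩ : ∃ nu, bl F v nu ≠ 0 ∧ bl F nu z = 0 := by
    refine ⟨nu₀ + (-(bl F nu₀ z / bl F z z)) • z, ?_, ?_⟩
    · rw [bl_add_right, bl_smul_right, hz1, mul_zero, add_zero]; exact hnu₀
    · rw [bl_add_left, bl_smul_left]
      field_simp
      ring
  have hlin : LinearIndependent ℝ ![F.mulVec v, F.mulVec z, F.mulVec nu] := by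
    rw [Fintype.linearIndependent_iff]
    intro c hc
    rw [Fin.sum_univ_three] at hc
    simp only [Matrix.cons_val_zero, Matrix.cons_val_one, Matrix.cons_val] at hc
    rw [← Matrix.mulVec_smul, ← Matrix.mulVec_smul, ← Matrix.mulVec_smul, ← Matrix.mulVec_add,
      ← Matrix.mulVec_add] at hc
    have hp : ∀ x, c 0 * bl F x v + c 1 * bl F x z + c 2 * bl F x nu = 0 := by
      intro x
      have h1 := congrArg (x ⬝ᵥ ·) hc
      simp only [dotProduct_zero] at h1
      rw [← bl_eq_dotProduct] at h1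
      simpa only [bl_add_right, bl_smul_right] using h1
    have e1 := hp v
    have e2 := hp z
    have e3 := hp nu
    rw [hv, hz1] at e1
    have c2 : c 2 = 0 := by
      have : c 2 * bl F v nu = 0 := by linarith
      exact (mul_eq_zero.1 this).resolve_right hnu
    rw [bl_comm hF z v, hz1, c2] at e2
    have c1 : c 1 = 0 := by
      have : c 1 * bl F z z = 0 := by linarith
      exact (mul_eq_zero.1 this).resolve_right hz2
    rw [bl_comm hF nu v, c1, c2] at e3
    have c0 : c 0 = 0 := by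
      have : c 0 * bl F v nu = 0 := by linarith
      exact (mul_eq_zero.1 this).resolve_right hnu
    intro i
    fin_cases i
    · exact c0
    · exact c1
    · exact c2
  have hle : Submodule.span ℝ (Set.range ![F.mulVec v, F.mulVec z, F.mulVec nu]) ≤
      LinearMap.range F.mulVecLin := by
    rw [Submodule.span_le]
    rintro x ⟨i, rfl⟩
    fin_cases i
    · exact ⟨v, rfl⟩
    · exact ⟨z, rfl⟩
    · exact ⟨nu, rfl⟩
  have h1 := Submodule.finrank_mono hle
  rw [finrank_span_eq_card hlin, Fintype.card_fin] at h1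
  exact h1

private theorem exists_of_rank {F : Matrix (Fin N) (Fin N) ℝ} (hF : F.IsSymm)
    {v : Fin N → ℝ} (hn : ∃ w, bl F v w ≠ 0) (hr : 3 ≤ F.rank) :
    ∃ z, bl F v z = 0 ∧ bl F z z ≠ 0 := by
  by_contra hcon
  have hH : ∀ z, bl F v z = 0 → bl F z z = 0 := by
    intro z hz
    by_contra hzz
    exact hcon ⟨z, hz, hzz⟩
  obtain ⟨nu, hnu⟩ := hn
  have hH2 : ∀ x y, bl F v x = 0 → bl F v y = 0 → bl F x y = 0 := by
    intro x y hx hy
    have h1 := hH (x + y) (by rw [bl_add_right, hx, hy, add_zero])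
    rw [bl_add_left, bl_add_right, bl_add_right, hH x hx, hH y hy, bl_comm hF y x] at h1
    linarith
  have key : ∀ x y, bl F v nu ^ 2 * bl F x y = bl F v nu * bl F v y * bl F x nu +
      bl F v nu * bl F v x * bl F nu y - bl F v x * bl F v y * bl F nu nu := by
    intro x y
    have h1 := hH2 (bl F v nu • x + (-bl F v x) • nu) (bl F v nu • y + (-bl F v y) • nu)
      (by rw [bl_add_right, bl_smul_right, bl_smul_right]; ring)
      (by rw [bl_add_right, bl_smul_right, bl_smul_right]; ring)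
    simp only [bl_add_left, bl_add_right, bl_smul_left, bl_smul_right] at h1
    linear_combination h1
  have hsq : bl F v nu ^ 2 ≠ 0 := pow_ne_zero 2 hnu
  have hle : LinearMap.range F.mulVecLin ≤
      Submodule.span ℝ (Set.range ![F.mulVec v, F.mulVec nu]) := by
    rintro y ⟨x, rfl⟩
    have hx : F.mulVec x = ((bl F v nu ^ 2)⁻¹ * (bl F v nu * bl F x nu - bl F v x * bl F nu nu)) •
        F.mulVec v + ((bl F v nu ^ 2)⁻¹ * (bl F v nu * bl F v x)) • F.mulVec nu := by
      funext i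
      simp only [Pi.add_apply, Pi.smul_apply, smul_eq_mul]
      rw [mulVec_apply_eq_bl hF, mulVec_apply_eq_bl hF, mulVec_apply_eq_bl hF]
      apply mul_left_cancel₀ hsq
      rw [key]
      field_simp
      ring
    rw [Matrix.mulVecLin_apply, hx]
    refine Submodule.add_mem _ (Submodule.smul_mem _ _ (Submodule.subset_span ⟨0, rfl⟩))
      (Submodule.smul_mem _ _ (Submodule.subset_span ⟨1, rfl⟩))
  have h1 := Submodule.finrank_mono hle
  have h2 := finrank_range_le_card (R := ℝ) ![F.mulVec v, F.mulVec nu]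
  rw [Fintype.card_fin] at h2
  have h3 : F.rank ≤ 2 := h1.trans h2
  omega

theorem good_iff {N : ℕ} {F : Matrix (Fin N) (Fin N) ℝ} (hF : F.IsSymm) (v : Fin N → ℝ) :
    Good F v ↔ v ⬝ᵥ F.mulVec v = 0 ∧ F.mulVec v ≠ 0 ∧ 3 ≤ F.rank := by
  rw [← bl_eq_dotProduct, mulVec_ne_zero_iff hF]
  exact ⟨fun h => ⟨h.1, h.2.1, three_le_rank_of_good hF h⟩,
    fun h => ⟨h.1, h.2.1, exists_of_rank hF h.2.1 h.2.2⟩⟩

theorem exists_good_iff {N : ℕ} {F : Matrix (Fin N) (Fin N) ℝ} (hF : F.IsSymm) :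
    (∃ v, Good F v) ↔ 3 ≤ F.rank ∧ (∃ v, 0 < v ⬝ᵥ F.mulVec v) ∧ ∃ v, v ⬝ᵥ F.mulVec v < 0 := by
  have hexp : ∀ (v w : Fin N → ℝ) (t : ℝ), bl F (v + t • w) (v + t • w) =
      bl F v v + 2 * t * bl F v w + t ^ 2 * bl F w w := by
    intro v w t
    rw [bl_add_left, bl_add_right, bl_add_right, bl_smul_left, bl_smul_left, bl_smul_right,
      bl_smul_right, bl_comm hF w v]
    ring
  constructor
  · rintro ⟨v, hg⟩
    refine ⟨three_le_rank_of_good hF hg, ?_⟩
    obtain ⟨hv, ⟨w, hw⟩, -⟩ := hg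
    set b := bl F v w with hb
    set c := bl F w w with hc
    set s : ℝ := 1 / (1 + |c|) with hs
    have hc1 : 0 < 1 + |c| := by positivity
    have hs0 : 0 < s := by positivity
    have hsc : |s * c| ≤ 1 := by
      rw [abs_mul, abs_of_pos hs0, hs, one_div, inv_mul_le_iff₀ hc1]
      linarith
    have hb2 : 0 < b ^ 2 := by positivity
    obtain ⟨h1, h2⟩ := abs_le.1 hsc
    refine ⟨⟨v + (b * s) • w, ?_⟩, ⟨v + (-(b * s)) • w, ?_⟩⟩
    · rw [← bl_eq_dotProduct, hexp, hv, ← hb, ← hc]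
      have : 0 + 2 * (b * s) * b + (b * s) ^ 2 * c = b ^ 2 * s * (2 + s * c) := by ring
      rw [this]
      have : 0 < 2 + s * c := by linarith
      positivity
    · rw [← bl_eq_dotProduct, hexp, hv, ← hb, ← hc]
      have : 0 + 2 * (-(b * s)) * b + (-(b * s)) ^ 2 * c = -(b ^ 2 * s * (2 - s * c)) := by ring
      rw [this]
      have : 0 < 2 - s * c := by linarith
      have : 0 < b ^ 2 * s * (2 - s * c) := by positivity
      linarith
  · rintro ⟨hr, ⟨p, hp⟩, q, hq⟩
    rw [← bl_eq_dotProduct] at hp hq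
    set D := bl F p q ^ 2 - bl F p p * bl F q q with hD
    have hD0 : 0 < D := by
      have h1 : bl F p p * bl F q q < 0 := mul_neg_of_pos_of_neg hp hq
      have h2 : 0 ≤ bl F p q ^ 2 := sq_nonneg _
      linarith
    have hsq : Real.sqrt D ^ 2 = D := Real.sq_sqrt hD0.le
    set x := (-bl F p q + Real.sqrt D) / bl F q q with hx
    have hxq : x * bl F q q = -bl F p q + Real.sqrt D := by
      rw [hx, div_mul_cancel₀ _ hq.ne]
    have hn : ∃ w, bl F (p + x • q) w ≠ 0 := by
      refine ⟨q, ?_⟩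
      rw [bl_add_left, bl_smul_left, hxq]
      have : 0 < Real.sqrt D := Real.sqrt_pos.2 hD0
      linarith [this]
    refine ⟨p + x • q, ?_, hn, exists_of_rank hF hn hr⟩
    rw [hexp]
    have h1 : bl F q q * (bl F p p + 2 * x * bl F p q + x ^ 2 * bl F q q) = 0 := by
      have : bl F q q * (bl F p p + 2 * x * bl F p q + x ^ 2 * bl F q q) =
          bl F p p * bl F q q + 2 * (x * bl F q q) * bl F p q + (x * bl F q q) ^ 2 := by ring
      rw [this, hxq]
      linear_combination hsq + hD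
    exact (mul_eq_zero.1 h1).resolve_left hq.ne

end Pool.Agent.Lib.MP42.QB
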