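import Pool.Agent.Lib.MP_42de19_nt.QB.DefsB

set_option autoImplicit false

/-! Semialgebraicity of the sets of the quadric bundle (projection theorem). -/

namespace Pool.Agent.Lib.MP42.QB

open Topology Filter Set
open Pool.Agent.Lib.MP42.CubicHyp (castV ratV)

/-- Projection theorem for `SA` sets of `Fin (a + b) → ℝ`. -/
theorem sa_proj {a b : ℕ} {S : Set (Fin (a + b) → ℝ)} (hS : SA (evR (a + b)) S) :
    SA (evR a) {x | ∃ y : Fin b → ℝ, Fin.append x y ∈ S} := by
  let ψ : MvPolynomial (Fin (a + b)) ℚ →ₐ[ℚ] MvPolynomial (Fin b) (MvPolynomial (Fin a) ℚ) :=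
    MvPolynomial.aeval (Fin.append (fun i : Fin a => MvPolynomial.C (MvPolynomial.X i))
      (fun j : Fin b => MvPolynomial.X j))
  have hψ : ∀ (p : MvPolynomial (Fin (a + b)) ℚ) (y : (Fin a → ℝ) × (Fin b → ℝ)),
      evMv b (evR a) (ψ p) y = evR (a + b) p (Fin.append y.1 y.2) := by
    intro p y
    induction p using MvPolynomial.induction_on with
    | C r =>
      have h1 : ψ (MvPolynomial.C r) = MvPolynomial.C (MvPolynomial.C r) := by
        simp only [ψ, MvPolynomial.aeval_C]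
        rfl
      rw [h1, evMv_apply, MvPolynomial.eval₂_C, evAt_apply, evR_apply, evR_apply,
        MvPolynomial.aeval_C, MvPolynomial.aeval_C]
    | add p q hp hq => rw [map_add, map_add, map_add, Pi.add_apply, Pi.add_apply, hp, hq]
    | mul_X p i hp =>
      rw [map_mul, map_mul, map_mul, Pi.mul_apply, Pi.mul_apply, hp]
      congr 1
      simp only [ψ, MvPolynomial.aeval_X]
      rw [evR_apply, MvPolynomial.aeval_X]
      refine Fin.addCases (fun i => ?_) (fun j => ?_) i
      · rw [Fin.append_left, Fin.append_left, evMv_apply, MvPolynomial.eval₂_C, evAt_apply,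
          evR_apply, MvPolynomial.aeval_X]
      · rw [Fin.append_right, Fin.append_right, evMv_apply, MvPolynomial.eval₂_X]
  have hT : SA (evMv b (evR a)) ((fun p : (Fin a → ℝ) × (Fin b → ℝ) => Fin.append p.1 p.2) ⁻¹' S) :=
    hS.comap (fun p => ψ p) _ hψ
  have h := (cad_evR a).projMv continuous_evR b _ hT
  have : {x | ∃ y : Fin b → ℝ, Fin.append x y ∈ S} = Prod.fst ''
      ((fun p : (Fin a → ℝ) × (Fin b → ℝ) => Fin.append p.1 p.2) ⁻¹' S) := by
    ext x
    constructor
    · rintro ⟨y, hy⟩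
      exact ⟨(x, y), hy, rfl⟩
    · rintro ⟨⟨x', y⟩, hy, rfl⟩
      exact ⟨y, hy⟩
  rw [this]
  exact h

theorem isPoly_Mt {N k m : ℕ} (M : Matrix (Fin N) (Fin N) (MvPolynomial (Fin k) ℚ))
    {t : (Fin m → ℝ) → (Fin k → ℝ)} (ht : ∀ i, CubicHyp.IsPoly (fun x => t x i)) (i j : Fin N) :
    CubicHyp.IsPoly (fun x => Mt M (t x) i j) := by
  have h : CubicHyp.IsPoly (fun s : Fin k → ℝ => Mt M s i j) := ⟨M i j, fun s => rfl⟩
  exact h.comp ht

theorem isPoly_bl_Mt {N k m : ℕ} (M : Matrix (Fin N) (Fin N) (MvPolynomial (Fin k) ℚ))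
    {t : (Fin m → ℝ) → (Fin k → ℝ)} (ht : ∀ i, CubicHyp.IsPoly (fun x => t x i))
    {v w : (Fin m → ℝ) → (Fin N → ℝ)} (hv : ∀ i, CubicHyp.IsPoly (fun x => v x i))
    (hw : ∀ i, CubicHyp.IsPoly (fun x => w x i)) : CubicHyp.IsPoly (fun x => bl (Mt M (t x)) (v x) (w x)) := by
  unfold bl
  exact CubicHyp.IsPoly.sum _ fun i _ => CubicHyp.IsPoly.sum _ fun j _ => ((isPoly_Mt M ht i j).mul (hv i)).mul (hw j)

theorem exists_bl_ne_iff {N : ℕ} (F : Matrix (Fin N) (Fin N) ℝ) (v : Fin N → ℝ) :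
    (∃ w, bl F v w ≠ 0) ↔ ∃ i : Fin N, bl F v (Pi.single i 1) ≠ 0 := by
  constructor
  · rintro ⟨w, hw⟩
    by_contra hcon
    push Not at hcon
    apply hw
    have h1 : ∀ j, bl F v (Pi.single j 1) = ∑ i, F i j * v i := by
      intro j
      unfold bl
      refine Finset.sum_congr rfl fun i _ => ?_
      rw [Finset.sum_eq_single j]
      · rw [Pi.single_eq_same, mul_one]
      · intro b _ hb
        rw [Pi.single_eq_of_ne hb, mul_zero]
      · intro h; exact absurd (Finset.mem_univ j) h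
    unfold bl
    rw [Finset.sum_comm]
    refine Finset.sum_eq_zero fun j _ => ?_
    rw [← Finset.sum_mul, ← h1, hcon, zero_mul]
  · rintro ⟨i, hi⟩
    exact ⟨_, hi⟩

/-- the set of the pairs of a parameter and a good vector -/
theorem sa_good {N k : ℕ} (M : Matrix (Fin N) (Fin N) (MvPolynomial (Fin k) ℚ)) :
    SA (evR (k + N)) {x : Fin (k + N) → ℝ | Good (Mt M (fun i => x (Fin.castAdd N i)))
      (fun j => x (Fin.natAdd k j))} := by
  have ht : ∀ i, CubicHyp.IsPoly (fun x : Fin (k + N) → ℝ => x (Fin.castAdd N i)) := fun i =>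
    CubicHyp.IsPoly.coord _
  have hv : ∀ j, CubicHyp.IsPoly (fun x : Fin (k + N) → ℝ => x (Fin.natAdd k j)) := fun j =>
    CubicHyp.IsPoly.coord _
  have h1 := (isPoly_bl_Mt M (t := fun x i => x (Fin.castAdd N i))
    (v := fun x j => x (Fin.natAdd k j)) (w := fun x j => x (Fin.natAdd k j)) ht hv hv).sa_eq_zero
  have h2 : SA (evR (k + N)) (⋃ i : Fin N, {x : Fin (k + N) → ℝ |
      bl (Mt M (fun i => x (Fin.castAdd N i))) (fun j => x (Fin.natAdd k j))
        (Pi.single i 1) ≠ 0}) := by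
    refine SA.iUnion_finite _ fun i => ?_
    refine (isPoly_bl_Mt M (t := fun x i => x (Fin.castAdd N i))
      (v := fun x j => x (Fin.natAdd k j)) (w := fun _ => Pi.single i 1) ht hv ?_).sa_ne_zero
    intro j
    by_cases h : j = i
    · subst h
      simpa using CubicHyp.IsPoly.const (N := k + N) 1
    · rw [show (fun _ : Fin (k + N) → ℝ => (Pi.single i 1 : Fin N → ℝ) j) = fun _ => ((0 : ℚ) : ℝ) from
        by funext x; rw [Pi.single_eq_of_ne h, Rat.cast_zero]]
      exact CubicHyp.IsPoly.const 0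
  have h3 : SA (evR (k + N)) {x : Fin (k + N) → ℝ | ∃ z : Fin N → ℝ,
      Fin.append x z ∈ {y : Fin (k + N + N) → ℝ |
        bl (Mt M (fun i => y (Fin.castAdd N (Fin.castAdd N i))))
          (fun j => y (Fin.castAdd N (Fin.natAdd k j))) (fun j => y (Fin.natAdd (k + N) j)) = 0} ∩
        {y : Fin (k + N + N) → ℝ |
        bl (Mt M (fun i => y (Fin.castAdd N (Fin.castAdd N i))))
          (fun j => y (Fin.natAdd (k + N) j)) (fun j => y (Fin.natAdd (k + N) j)) ≠ 0}} := by
    refine sa_proj ?_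
    have ht' : ∀ i, CubicHyp.IsPoly (fun y : Fin (k + N + N) → ℝ => y (Fin.castAdd N (Fin.castAdd N i))) :=
      fun i => CubicHyp.IsPoly.coord _
    have hv' : ∀ j, CubicHyp.IsPoly (fun y : Fin (k + N + N) → ℝ => y (Fin.castAdd N (Fin.natAdd k j))) :=
      fun j => CubicHyp.IsPoly.coord _
    have hz' : ∀ j, CubicHyp.IsPoly (fun y : Fin (k + N + N) → ℝ => y (Fin.natAdd (k + N) j)) :=
      fun j => CubicHyp.IsPoly.coord _
    exact ((isPoly_bl_Mt M (t := fun y i => y (Fin.castAdd N (Fin.castAdd N i)))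
      (v := fun y j => y (Fin.castAdd N (Fin.natAdd k j)))
      (w := fun y j => y (Fin.natAdd (k + N) j)) ht' hv' hz').sa_eq_zero).inter
      ((isPoly_bl_Mt M (t := fun y i => y (Fin.castAdd N (Fin.castAdd N i)))
      (v := fun y j => y (Fin.natAdd (k + N) j))
      (w := fun y j => y (Fin.natAdd (k + N) j)) ht' hz' hz').sa_ne_zero)
  have h := h1.inter (h2.inter h3)
  refine (congrArg (fun A => SA _ A) (Set.ext fun x => ?_)).mpr h
  simp only [mem_ofPred_eq, mem_inter_iff, mem_iUnion, Good, exists_bl_ne_iff, Fin.append_left,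
    Fin.append_right]

/-- [F3] -/
theorem sa_Um {N k : ℕ} (M : Matrix (Fin N) (Fin N) (MvPolynomial (Fin k) ℚ)) :
    SA (evR k) (Um M) := by
  have h := sa_proj (sa_good M)
  refine (congrArg (fun A => SA _ A) (Set.ext fun t => ?_)).mpr h
  simp only [Um, mem_ofPred_eq, Fin.append_left, Fin.append_right]

/-- [F3] -/
theorem sa_Xo {n k : ℕ} (M : Matrix (Fin (n + 1)) (Fin (n + 1)) (MvPolynomial (Fin k) ℚ)) :
    SA (evR (n + k)) (Xo M) := by
  have h := CubicHyp.SA.comap_poly (sa_good M) (N := n + k)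
    (φ := fun x => Fin.append (tp x) (Fin.cons 1 (zp x))) ?_
  · refine (congrArg (fun A => SA _ A) (Set.ext fun x => ?_)).mpr h
    simp only [Xo, mem_ofPred_eq, mem_preimage, Fin.append_left, Fin.append_right]
  · intro i
    refine Fin.addCases (fun i => ?_) (fun j => ?_) i
    · simp only [Fin.append_left, tp]
      exact CubicHyp.IsPoly.coord _
    · simp only [Fin.append_right]
      refine Fin.cases ?_ (fun j => ?_) j
      · simpa using CubicHyp.IsPoly.const (N := n + k) 1
      · simp only [Fin.cons_succ]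
        exact CubicHyp.IsPoly.coord _

end Pool.Agent.Lib.MP42.QB
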