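import Pool.Agent.Lib.MP_42de19_nt.QB.DefsB

set_option autoImplicit false

/-! Quadric bundles (MP_42de19_nt), piece E1: continuity and rationality of the family. -/

namespace Pool.Agent.Lib.MP42.QB

open Topology Filter Set
open Pool.Agent.Lib.MP42.CubicHyp (castV ratV dense_ratV)

/-- continuity of the family -/
theorem continuous_Mt {N k : ℕ} (M : Matrix (Fin N) (Fin N) (MvPolynomial (Fin k) ℚ)) :
    Continuous (Mt M) := by
  refine continuous_matrix fun i j => ?_
  have h : (fun t : Fin k → ℝ => Mt M t i j) =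
      fun t => MvPolynomial.eval t (MvPolynomial.map (algebraMap ℚ ℝ) (M i j)) := by
    funext t
    rw [MvPolynomial.eval_map]
    rfl
  rw [h]
  exact MvPolynomial.continuous_eval _

/-- the matrix at a rational parameter is rational -/
theorem Mt_rat {N k : ℕ} (M : Matrix (Fin N) (Fin N) (MvPolynomial (Fin k) ℚ)) {t : Fin k → ℝ}
    (ht : t ∈ ratV k) : ∃ A : Matrix (Fin N) (Fin N) ℚ, Mt M t = castM A := by
  obtain ⟨q, rfl⟩ := ht
  refine ⟨M.map (MvPolynomial.aeval q), ?_⟩
  ext i j
  exact MvPolynomial.aeval_algebraMap_apply ℝ q (M i j)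

end Pool.Agent.Lib.MP42.QB
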