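import Pool.Agent.Lib.MP_42de19_nt.QB.TernMain

set_option autoImplicit false

/-! Ternary pencils: the exceptional case, change of the base point, the general case. -/

namespace Pool.Agent.Lib.MP42.QB

open Topology Filter Set

/-- the exceptional case: `a(s)` is a square and `R` is a square up to a multiple of `y² - x w` -/
theorem exc_case {q m b1 b2 c l1 l2 : ℚ} (hq : q ≠ 0) (hc : c ≠ 0) {Q : ℚ → Prop}
    (hQ : ∀ s x y w : ℚ, ¬ (x = 0 ∧ y = 0 ∧ w = 0) →
      q * (1 + m * s) ^ 2 * (y ^ 2 - x * w) + (b1 * s + b2 * s ^ 2) * c * (x + l1 * y + l2 * w) ^ 2 = 0 →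
      Q s) : DenseNear Q := by
  set t0 : ℚ := c * b1 / q with ht0
  have hqt : q * t0 = c * b1 := by rw [ht0]; field_simp
  -- choice of `k`
  obtain ⟨k, hk⟩ : ∃ k : ℚ, q * k ^ 2 + c * (b1 * (l1 * k + l2 * t0 - m) + b2) ≠ 0 := by
    by_contra hcon
    push Not at hcon
    have h0 := hcon 0
    have h1 := hcon 1
    have h2 := hcon (-1)
    apply hq
    linarith
  refine denseNear_of_cont (P := fun _ => -q)
    (R := fun b => -(q * k ^ 2 + c * (b1 * (l1 * k + l2 * (t0 + b) - m) + b2)) -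
      q * b * (l1 * k + l2 * (t0 + b) - m))
    (p := fun _ => -q)
    (r := fun b => -(q * k ^ 2 + c * (b1 * (l1 * k + l2 * (t0 + b) - m) + b2)) -
      q * b * (l1 * k + l2 * (t0 + b) - m))
    (by fun_prop) (by fun_prop) (by intro b; push_cast; ring) (by intro b; push_cast; ring)
    (neg_ne_zero.mpr hq) ?_ ?_
  · simp only [mul_zero, zero_mul, add_zero, sub_zero]
    exact neg_ne_zero.mpr hk
  · intro b hb
    set Tg : ℚ := l1 * k + l2 * (t0 + b) - m with hTg
    set G : ℚ := q * k ^ 2 + c * (b1 * Tg + b2) with hG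
    set T : ℚ := -G - q * b * Tg with hT
    set S : ℚ := b * -q with hS
    -- the point
    have hpt : q * (T + m * S) ^ 2 * ((-(q * b * k)) ^ 2 - (-G) * (-(q * b * (t0 + b)))) +
        (b1 * S * T + b2 * S ^ 2) * c * (-G + l1 * (-(q * b * k)) + l2 * (-(q * b * (t0 + b)))) ^ 2 =
          0 := by
      have h1 : -G + l1 * (-(q * b * k)) + l2 * (-(q * b * (t0 + b))) = T + m * S := by
        rw [hT, hS, hTg]; ring
      have h2 : q * ((-(q * b * k)) ^ 2 - (-G) * (-(q * b * (t0 + b)))) +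
          c * (b1 * S * T + b2 * S ^ 2) = 0 := by
        rw [hT, hS]
        have h3 : G = q * k ^ 2 + c * (b1 * Tg + b2) := hG
        linear_combination (- q * b * G) * hqt + (- q ^ 2 * b ^ 2) * h3
      rw [h1]
      linear_combination (T + m * S) ^ 2 * h2
    have hb' : T ≠ 0 := hb
    by_cases hz : -G = 0 ∧ -(q * b * k) = 0 ∧ -(q * b * (t0 + b)) = 0
    · obtain ⟨z0, z1, z2⟩ := hz
      have hqb : q * b ≠ 0 := by
        intro h0
        apply hb'
        rw [hT, z0, h0]; ring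
      have hk0 : k = 0 := by
        rcases mul_eq_zero.mp (neg_eq_zero.mp z1) with h | h
        · exact absurd h hqb
        · exact h
      have htb : t0 + b = 0 := by
        rcases mul_eq_zero.mp (neg_eq_zero.mp z2) with h | h
        · exact absurd h hqb
        · exact h
      have hTg' : Tg = -m := by rw [hTg, hk0, htb]; ring
      have hTT : T = q * b * m := by rw [hT, z0, hTg']; ring
      have hm : m ≠ 0 := by rintro rfl; exact hb' (by rw [hTT, mul_zero])
      have hb2 : b2 = b1 * m := by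
        have h1 : G = 0 := neg_eq_zero.mp z0
        rw [hG, hk0, hTg'] at h1
        have h2 : c * (b2 - b1 * m) = 0 := by linear_combination h1
        linarith [(mul_eq_zero.mp h2).resolve_left hc]
      have hs : b * -q / T = -1 / m := by
        rw [hTT]
        have hb0 : b ≠ 0 := right_ne_zero_of_mul hqb
        field_simp
      show Q (b * -q / T)
      rw [hs]
      refine hQ (-1 / m) 1 0 0 (by simp) ?_
      rw [hb2]
      field_simp
      ring
    · have h4 : (q * (1 + m * (S / T)) ^ 2 * ((-(q * b * k)) ^ 2 - (-G) * (-(q * b * (t0 + b)))) +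
          (b1 * (S / T) + b2 * (S / T) ^ 2) * c *
            (-G + l1 * (-(q * b * k)) + l2 * (-(q * b * (t0 + b)))) ^ 2) * T ^ 2 = 0 := by
        have e1 : (1 + m * (S / T)) ^ 2 * T ^ 2 = (T + m * S) ^ 2 := by field_simp
        have e2 : (b1 * (S / T) + b2 * (S / T) ^ 2) * T ^ 2 = b1 * S * T + b2 * S ^ 2 := by
          field_simp
        calc _ = q * ((1 + m * (S / T)) ^ 2 * T ^ 2) *
              ((-(q * b * k)) ^ 2 - (-G) * (-(q * b * (t0 + b)))) +
              ((b1 * (S / T) + b2 * (S / T) ^ 2) * T ^ 2) * c *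
              (-G + l1 * (-(q * b * k)) + l2 * (-(q * b * (t0 + b)))) ^ 2 := by ring
          _ = 0 := by rw [e1, e2]; exact hpt
      exact hQ (S / T) (-G) (-(q * b * k)) (-(q * b * (t0 + b))) hz
        ((mul_eq_zero.mp h4).resolve_right (pow_ne_zero 2 hb'))

/-- the form in the basis `(1, u, u²), (0, 1, 2u), (0, 0, 1)` -/
def Tern.shift (R : Tern) (u : ℚ) : Tern where
  a := R.a + 2 * R.b * u + (R.c + 2 * R.d) * u ^ 2 + 2 * R.e * u ^ 3 + R.f * u ^ 4
  b := R.b + (R.c + 2 * R.d) * u + 3 * R.e * u ^ 2 + 2 * R.f * u ^ 3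
  c := R.c + 4 * R.e * u + 4 * R.f * u ^ 2
  d := R.d + R.e * u + R.f * u ^ 2
  e := R.e + 2 * R.f * u
  f := R.f

theorem Tern.shift_ev (R : Tern) (u x y w : ℚ) :
    (R.shift u).ev x y w = R.ev x (u * x + y) (u ^ 2 * x + 2 * u * y + w) := by
  unfold Tern.ev Tern.shift
  ring

theorem SIso.of_shift {q a1 a2 b1 b2 : ℚ} {R : Tern} {u s : ℚ}
    (h : SIso q a1 a2 b1 b2 (R.shift u) s) : SIso q a1 a2 b1 b2 R s := by
  obtain ⟨x, y, w, hne, h⟩ := h
  refine ⟨x, u * x + y, u ^ 2 * x + 2 * u * y + w, ?_, ?_⟩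
  · rintro ⟨h0, h1, h2⟩
    apply hne
    have hy : y = 0 := by rw [h0] at h1; linarith
    refine ⟨h0, hy, ?_⟩
    rw [h0, hy] at h2; linarith
  · rw [Tern.shift_ev] at h
    linear_combination h

/-- the constant term of a function which vanishes near zero -/
theorem zero_of_punct {p0 : ℚ} {g : ℚ → ℚ} (hg : Continuous g) {a : ℚ → ℚ} (ha : Continuous a)
    (ha0 : a 0 ≠ 0) (h : ∀ u : ℚ, u ≠ 0 → a u ≠ 0 → p0 + u * g u = 0) : p0 = 0 := by
  have h1 : Tendsto (fun u : ℚ => p0 + u * g u) (𝓝[≠] 0) (𝓝 (p0 + 0 * g 0)) :=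
    ((continuous_const.add (continuous_id.mul hg)).tendsto 0).mono_left nhdsWithin_le_nhds
  have h2 : ∀ᶠ u in 𝓝[≠] (0 : ℚ), p0 + u * g u = 0 := by
    have h3 : ∀ᶠ u in 𝓝[≠] (0 : ℚ), a u ≠ 0 :=
      (ha.continuousAt.eventually_ne ha0).filter_mono nhdsWithin_le_nhds
    filter_upwards [h3, self_mem_nhdsWithin] with u hu hu0
    exact h u hu0 hu
  have h4 : Tendsto (fun u : ℚ => p0 + u * g u) (𝓝[≠] 0) (𝓝 0) :=
    Tendsto.congr' (EventuallyEq.symm h2) tendsto_const_nhds
  have := tendsto_nhds_unique h1 h4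
  rwa [zero_mul, add_zero] at this

end Pool.Agent.Lib.MP42.QB
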