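import Pool.Agent.Lib.MP_42de19_nt.QB.Tern

set_option autoImplicit false

/-! Ternary pencils `a(s) (y² - x w) + b(s) R`: the general case. -/

namespace Pool.Agent.Lib.MP42.QB

open Topology Filter Set

/-- a continuous function which vanishes near zero outside zero -/
theorem zero_of_punct' {g : ℚ → ℚ} (hg : Continuous g) {a : ℚ → ℚ} (ha : Continuous a)
    (ha0 : a 0 ≠ 0) (h : ∀ u : ℚ, u ≠ 0 → a u ≠ 0 → g u = 0) : g 0 = 0 := by
  have h1 : Tendsto g (𝓝[≠] 0) (𝓝 (g 0)) := (hg.tendsto 0).mono_left nhdsWithin_le_nhds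
  have h2 : ∀ᶠ u in 𝓝[≠] (0 : ℚ), g u = 0 := by
    have h3 : ∀ᶠ u in 𝓝[≠] (0 : ℚ), a u ≠ 0 :=
      (ha.continuousAt.eventually_ne ha0).filter_mono nhdsWithin_le_nhds
    filter_upwards [h3, self_mem_nhdsWithin] with u hu hu0
    exact h u hu0 hu
  have h4 : Tendsto g (𝓝[≠] 0) (𝓝 0) :=
    Tendsto.congr' (EventuallyEq.symm h2) tendsto_const_nhds
  exact tendsto_nhds_unique h1 h4

/-- the first two relations, if `b₁ ≠ 0` -/
theorem rel_one {a b c d e f : ℚ} (ha : a ≠ 0)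
    (h : ∀ u : ℚ, a + 2 * b * u + (c + 2 * d) * u ^ 2 + 2 * e * u ^ 3 + f * u ^ 4 ≠ 0 →
      2 * (a + 2 * b * u + (c + 2 * d) * u ^ 2 + 2 * e * u ^ 3 + f * u ^ 4) *
        (b + (c + 2 * d) * u + 3 * e * u ^ 2 + 2 * f * u ^ 3) * (d + e * u + f * u ^ 2) -
      2 * (a + 2 * b * u + (c + 2 * d) * u ^ 2 + 2 * e * u ^ 3 + f * u ^ 4) ^ 2 *
        (e + 2 * f * u) +
      (a + 2 * b * u + (c + 2 * d) * u ^ 2 + 2 * e * u ^ 3 + f * u ^ 4) *
        (b + (c + 2 * d) * u + 3 * e * u ^ 2 + 2 * f * u ^ 3) * (c + 4 * e * u + 4 * f * u ^ 2) -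
      (b + (c + 2 * d) * u + 3 * e * u ^ 2 + 2 * f * u ^ 3) ^ 3 = 0) :
    2 * a ^ 2 * e = b * (a * (c + 2 * d) - b ^ 2) ∧
      4 * a ^ 2 * f = a * (c + 2 * d) ^ 2 - b ^ 2 * (c + 2 * d) - 2 * a * b * e := by
  have h0 := h 0 (by simpa using ha)
  have h0' : 2 * a * b * d - 2 * a ^ 2 * e + a * b * c - b ^ 3 = 0 := by
    linear_combination h0
  have h1 := zero_of_punct' (g := fun u : ℚ =>
      2 * ((2 * b + (c + 2 * d) * u + 2 * e * u ^ 2 + f * u ^ 3) * b * d +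
        a * ((c + 2 * d) + 3 * e * u + 2 * f * u ^ 2) * d + a * b * (e + f * u) +
        u * ((2 * b + (c + 2 * d) * u + 2 * e * u ^ 2 + f * u ^ 3) *
          ((c + 2 * d) + 3 * e * u + 2 * f * u ^ 2) * d +
          (2 * b + (c + 2 * d) * u + 2 * e * u ^ 2 + f * u ^ 3) * b * (e + f * u) +
          a * ((c + 2 * d) + 3 * e * u + 2 * f * u ^ 2) * (e + f * u)) +
        u ^ 2 * ((2 * b + (c + 2 * d) * u + 2 * e * u ^ 2 + f * u ^ 3) *
          ((c + 2 * d) + 3 * e * u + 2 * f * u ^ 2) * (e + f * u))) -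
      2 * ((2 * a * (2 * b + (c + 2 * d) * u + 2 * e * u ^ 2 + f * u ^ 3) +
        u * (2 * b + (c + 2 * d) * u + 2 * e * u ^ 2 + f * u ^ 3) ^ 2) * (e + u * (2 * f)) +
        a ^ 2 * (2 * f)) +
      ((2 * b + (c + 2 * d) * u + 2 * e * u ^ 2 + f * u ^ 3) * b * c +
        a * ((c + 2 * d) + 3 * e * u + 2 * f * u ^ 2) * c + a * b * (4 * e + 4 * f * u) +
        u * ((2 * b + (c + 2 * d) * u + 2 * e * u ^ 2 + f * u ^ 3) *
          ((c + 2 * d) + 3 * e * u + 2 * f * u ^ 2) * c +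
          (2 * b + (c + 2 * d) * u + 2 * e * u ^ 2 + f * u ^ 3) * b * (4 * e + 4 * f * u) +
          a * ((c + 2 * d) + 3 * e * u + 2 * f * u ^ 2) * (4 * e + 4 * f * u)) +
        u ^ 2 * ((2 * b + (c + 2 * d) * u + 2 * e * u ^ 2 + f * u ^ 3) *
          ((c + 2 * d) + 3 * e * u + 2 * f * u ^ 2) * (4 * e + 4 * f * u))) -
      (3 * b ^ 2 * ((c + 2 * d) + 3 * e * u + 2 * f * u ^ 2) +
        3 * u * b * ((c + 2 * d) + 3 * e * u + 2 * f * u ^ 2) ^ 2 +
        u ^ 2 * ((c + 2 * d) + 3 * e * u + 2 * f * u ^ 2) ^ 3))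
    (a := fun u : ℚ => a + 2 * b * u + (c + 2 * d) * u ^ 2 +
      2 * e * u ^ 3 + f * u ^ 4) (by fun_prop) (by fun_prop)
    (by simpa using ha) (by
    intro u hu hau
    have h2 := h u hau
    refine mul_left_cancel₀ hu ?_
    linear_combination h2 - h0')
  simp only [mul_zero, add_zero, zero_mul, ne_eq, OfNat.ofNat_ne_zero, not_false_eq_true,
    zero_pow] at h1
  constructor
  · linear_combination - h0'
  · linear_combination - h1

/-- the first two relations, if `b₁ = 0` -/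
theorem rel_two {a b c d e f mu : ℚ} (ha : a ≠ 0) (hmu : a * mu = a * c - b ^ 2)
    (h : ∀ u : ℚ, a + 2 * b * u + (c + 2 * d) * u ^ 2 + 2 * e * u ^ 3 + f * u ^ 4 ≠ 0 →
      ((c + 4 * e * u + 4 * f * u ^ 2) - mu) *
        (a + 2 * b * u + (c + 2 * d) * u ^ 2 + 2 * e * u ^ 3 + f * u ^ 4) -
      (b + (c + 2 * d) * u + 3 * e * u ^ 2 + 2 * f * u ^ 3) ^ 2 = 0) :
    2 * a ^ 2 * e = b * (a * (c + 2 * d) - b ^ 2) ∧
      4 * a ^ 2 * f = a * (c + 2 * d) ^ 2 - b ^ 2 * (c + 2 * d) - 2 * a * b * e := by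
  have h1 := zero_of_punct' (g := fun u : ℚ => (c - mu) * (2 * b + (c + 2 * d) * u + 2 * e * u ^ 2 + f * u ^ 3) +
      a * (4 * e + 4 * f * u) +
      u * (2 * b + (c + 2 * d) * u + 2 * e * u ^ 2 + f * u ^ 3) * (4 * e + 4 * f * u) -
      2 * b * ((c + 2 * d) + 3 * e * u + 2 * f * u ^ 2) -
      u * ((c + 2 * d) + 3 * e * u + 2 * f * u ^ 2) ^ 2)
    (a := fun u : ℚ => a + 2 * b * u + (c + 2 * d) * u ^ 2 +
      2 * e * u ^ 3 + f * u ^ 4) (by fun_prop) (by fun_prop)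
    (by simpa using ha) (by
    intro u hu hau
    have h2 := h u hau
    refine mul_left_cancel₀ hu ?_
    linear_combination h2 + hmu)
  simp only [mul_zero, add_zero, zero_mul, ne_eq, OfNat.ofNat_ne_zero, not_false_eq_true,
    zero_pow, sub_zero] at h1
  have h3 := zero_of_punct' (g := fun u : ℚ => (c - mu) * ((c + 2 * d) + 2 * e * u + f * u ^ 2) + a * (4 * f) +
      (2 * b + (c + 2 * d) * u + 2 * e * u ^ 2 + f * u ^ 3) * (4 * e + 4 * f * u) -
      2 * b * (3 * e + 2 * f * u) -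
      ((c + 2 * d) + 3 * e * u + 2 * f * u ^ 2) ^ 2)
    (a := fun u : ℚ => a + 2 * b * u + (c + 2 * d) * u ^ 2 +
      2 * e * u ^ 3 + f * u ^ 4) (by fun_prop) (by fun_prop)
    (by simpa using ha) (by
    intro u hu hau
    have h2 := h u hau
    refine mul_left_cancel₀ (pow_ne_zero 2 hu) ?_
    linear_combination h2 + hmu - u * h1)
  simp only [mul_zero, add_zero, zero_mul, ne_eq, OfNat.ofNat_ne_zero, not_false_eq_true,
    zero_pow, sub_zero] at h3
  constructor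
  · linear_combination (a / 2) * h1 + b * hmu
  · linear_combination a * h3 + (c + 2 * d) * hmu

theorem siso_near {q : ℚ} (hq : q ≠ 0) (a1 a2 b1 b2 : ℚ) (R : Tern) :
    DenseNear (SIso q a1 a2 b1 b2 R) := by
  by_cases ha : R.a = 0
  · refine DenseNear.of_forall fun s => ⟨1, 0, 0, by simp, ?_⟩
    unfold Tern.ev
    rw [ha]; ring
  by_cases hb : b1 = 0 ∧ b2 = 0
  · refine DenseNear.of_forall fun s => ⟨1, 0, 0, by simp, ?_⟩
    rw [hb.1, hb.2]; ring
  by_cases hex : ∃ u : ℚ, (R.shift u).a ≠ 0 ∧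
      ¬ (b1 * (2 * (R.shift u).a * (R.shift u).b * (R.shift u).d -
        2 * (R.shift u).a ^ 2 * (R.shift u).e + (R.shift u).a * (R.shift u).b * (R.shift u).c -
          (R.shift u).b ^ 3) = 0 ∧
      (R.shift u).f * (-(R.shift u).a / q) * b1 ^ 2 +
        (a2 + a1 * ((2 * b1 * (R.shift u).d - a1) / (2 * q)) +
        q * ((2 * b1 * (R.shift u).d - a1) / (2 * q)) ^ 2) +
        ((R.shift u).c - (R.shift u).b ^ 2 / (R.shift u).a) *
          (b1 * ((2 * b1 * (R.shift u).d - a1) / (2 * q)) + b2) = 0)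
  · obtain ⟨u, hu, hne⟩ := hex
    exact (main_case hq hu hne).mono fun s h => h.of_shift
  push Not at hex
  obtain ⟨a, b, c, d, e, f⟩ := R
  simp only [Tern.shift] at hex ha
  have h0 := (hex 0 (by simpa using ha)).2
  simp only [mul_zero, add_zero, ne_eq, OfNat.ofNat_ne_zero, not_false_eq_true,
    zero_pow] at h0
  set mu : ℚ := c - b ^ 2 / a with hmu
  have hmu' : a * mu = a * c - b ^ 2 := by rw [hmu]; field_simp
  have hrel : 2 * a ^ 2 * e = b * (a * (c + 2 * d) - b ^ 2) ∧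
      4 * a ^ 2 * f = a * (c + 2 * d) ^ 2 - b ^ 2 * (c + 2 * d) - 2 * a * b * e := by
    by_cases hb1 : b1 = 0
    · have hb2 : b2 ≠ 0 := fun h => hb ⟨hb1, h⟩
      refine rel_two ha hmu' ?_
      intro u hu
      have h1 := (hex u hu).2
      rw [hb1] at h1 h0
      have h2 : b2 * (((c + 4 * e * u + 4 * f * u ^ 2) -
          (b + (c + 2 * d) * u + 3 * e * u ^ 2 + 2 * f * u ^ 3) ^ 2 /
          (a + 2 * b * u + (c + 2 * d) * u ^ 2 + 2 * e * u ^ 3 + f * u ^ 4)) - mu) = 0 := by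
        linear_combination h1 - h0
      have h3 := (mul_eq_zero.mp h2).resolve_left hb2
      have h4 : (b + (c + 2 * d) * u + 3 * e * u ^ 2 + 2 * f * u ^ 3) ^ 2 /
          (a + 2 * b * u + (c + 2 * d) * u ^ 2 + 2 * e * u ^ 3 + f * u ^ 4) =
          (c + 4 * e * u + 4 * f * u ^ 2) - mu := by linarith
      rw [div_eq_iff hu] at h4
      rw [h4]; ring
    · refine rel_one ha ?_
      intro u hu
      exact (mul_eq_zero.mp (hex u hu).1).resolve_left hb1
  obtain ⟨he, hf⟩ := hrel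
  set l2 : ℚ := (a * (c + 2 * d) - b ^ 2) / (2 * a ^ 2) with hl2
  have hl2' : 2 * a ^ 2 * l2 = a * (c + 2 * d) - b ^ 2 := by rw [hl2]; field_simp
  set l1 : ℚ := b / a with hl1
  have hl1' : a * l1 = b := by rw [hl1]; field_simp
  -- the coefficients of `R` in terms of `l1, l2, mu`
  have k1 : c = a * l1 ^ 2 + mu := by
    have : a * c = a * (a * l1 ^ 2 + mu) := by
      linear_combination - hmu' - (a * l1 + b) * hl1'
    exact mul_left_cancel₀ ha this
  have k2 : 2 * d = 2 * a * l2 - mu := by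
    have : a * (2 * d) = a * (2 * a * l2 - mu) := by
      linear_combination - hl2' + hmu'
    exact mul_left_cancel₀ ha this
  have k3 : e = a * l1 * l2 := by
    have h2a : (2 * a ^ 2) ≠ 0 := mul_ne_zero two_ne_zero (pow_ne_zero 2 ha)
    have : 2 * a ^ 2 * e = 2 * a ^ 2 * (a * l1 * l2) := by
      linear_combination he - (a * l1) * hl2' - (a * (c + 2 * d) - b ^ 2) * hl1'
    exact mul_left_cancel₀ h2a this
  have k4 : f = a * l2 ^ 2 := by
    have h4a : (4 * a ^ 3) ≠ 0 := mul_ne_zero four_ne_zero (pow_ne_zero 3 ha)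
    have : 4 * a ^ 3 * f = 4 * a ^ 3 * (a * l2 ^ 2) := by
      have h5 : (2 * a ^ 2 * l2) ^ 2 = (a * (c + 2 * d) - b ^ 2) ^ 2 := by rw [hl2']
      linear_combination a * hf - h5 - b * he
    exact mul_left_cancel₀ h4a this
  -- the condition on `a(s)`
  have hsq : 4 * q * (a2 + mu * b2) = (a1 + mu * b1) ^ 2 := by
    have hqq : q * ((2 * b1 * d - a1) / (2 * q)) = b1 * d - a1 / 2 := by field_simp
    set t3 : ℚ := (2 * b1 * d - a1) / (2 * q) with ht3
    have h6 : f * (-a / q) * b1 ^ 2 * q = - (f * a * b1 ^ 2) := by field_simp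
    have h7 : q * (f * (-a / q) * b1 ^ 2 + (a2 + a1 * t3 + q * t3 ^ 2) +
        mu * (b1 * t3 + b2)) = 0 := by rw [h0, mul_zero]
    have h8 : - (f * a * b1 ^ 2) + q * a2 + a1 * (q * t3) + (q * t3) ^ 2 + mu * b1 * (q * t3) +
        q * mu * b2 = 0 := by linear_combination h7 - h6
    rw [hqq, k4] at h8
    have hd : d = a * l2 - mu / 2 := by linarith
    rw [hd] at h8
    linear_combination 4 * h8
  -- conclusion
  refine exc_case (m := (a1 + mu * b1) / (2 * q)) (b1 := b1) (b2 := b2) (c := a) (l1 := l1)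
    (l2 := l2) hq ha ?_
  intro s x y w hne hz
  refine ⟨x, y, w, hne, ?_⟩
  have hq2 : q * (1 + (a1 + mu * b1) / (2 * q) * s) ^ 2 =
      q + (a1 + mu * b1) * s + (a2 + mu * b2) * s ^ 2 := by
    have : (a2 + mu * b2) = (a1 + mu * b1) ^ 2 / (4 * q) := by
      rw [eq_div_iff (mul_ne_zero four_ne_zero hq)]; linarith
    rw [this]
    field_simp
    ring
  rw [hq2] at hz
  unfold Tern.ev
  simp only []
  rw [k1, k3, k4]
  have hd : d = a * l2 - mu / 2 := by linarith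
  rw [hd, ← hl1']
  linear_combination hz

end Pool.Agent.Lib.MP42.QB
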