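import Pool.Agent.Lib.MP_42de19_nt.QB.Curve

set_option autoImplicit false

/-! Ternary pencils `a(s) (y² - x w) + b(s) R`: the main case. -/

namespace Pool.Agent.Lib.MP42.QB

/-- `(q + a₁ s + a₂ s²)(y² - x w) + (b₁ s + b₂ s²) R` has a nontrivial rational zero -/
def SIso (q a1 a2 b1 b2 : ℚ) (R : Tern) (s : ℚ) : Prop :=
  ∃ x y w : ℚ, ¬ (x = 0 ∧ y = 0 ∧ w = 0) ∧
    (q + a1 * s + a2 * s ^ 2) * (y ^ 2 - x * w) + (b1 * s + b2 * s ^ 2) * R.ev x y w = 0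

/-- matrix of `y² - x w - k (b₁ S T + b₂ S²)` -/
def mat1 (k b1 b2 : ℚ) : Matrix (Fin 5) (Fin 5) ℚ :=
  !![0, 0, -1/2, 0, 0; 0, 1, 0, 0, 0; -1/2, 0, 0, 0, 0; 0, 0, 0, -(k*b2), -(k*b1/2);
    0, 0, 0, -(k*b1/2), 0]

/-- matrix of `R + k (q T² + a₁ S T + a₂ S²)` -/
def mat2 (k q a1 a2 : ℚ) (R : Tern) : Matrix (Fin 5) (Fin 5) ℚ :=
  !![R.a, R.b, R.d, 0, 0; R.b, R.c, R.e, 0, 0; R.d, R.e, R.f, 0, 0; 0, 0, 0, k*a2, k*a1/2;
    0, 0, 0, k*a1/2, k*q]

theorem mat1_symm (k b1 b2 : ℚ) : (mat1 k b1 b2).IsSymm := by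
  unfold mat1
  ext i j
  fin_cases i <;> fin_cases j <;> simp [Matrix.transpose_apply]

theorem mat2_symm (k q a1 a2 : ℚ) (R : Tern) : (mat2 k q a1 a2 R).IsSymm := by
  unfold mat2
  ext i j
  fin_cases i <;> fin_cases j <;> simp [Matrix.transpose_apply]

theorem bl_mat1 (k b1 b2 : ℚ) (v w : Fin 5 → ℚ) : bl (mat1 k b1 b2) v w =
    v 1 * w 1 - (v 0 * w 2 + v 2 * w 0) / 2 - k * (b1 * (v 3 * w 4 + v 4 * w 3) / 2 +
      b2 * v 3 * w 3) := by
  unfold bl mat1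
  simp [Fin.sum_univ_five]
  ring

theorem bl_mat2 (k q a1 a2 : ℚ) (R : Tern) (v w : Fin 5 → ℚ) : bl (mat2 k q a1 a2 R) v w =
    R.a * v 0 * w 0 + R.b * (v 0 * w 1 + v 1 * w 0) + R.c * v 1 * w 1 +
      R.d * (v 0 * w 2 + v 2 * w 0) + R.e * (v 1 * w 2 + v 2 * w 1) + R.f * v 2 * w 2 +
      k * (q * v 4 * w 4 + a1 * (v 3 * w 4 + v 4 * w 3) / 2 + a2 * v 3 * w 3) := by
  unfold bl mat2
  simp [Fin.sum_univ_five]
  ring

theorem main_case {q a1 a2 b1 b2 : ℚ} {R : Tern} (hq : q ≠ 0) (ha : R.a ≠ 0)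
    (h : ¬ (b1 * (2 * R.a * R.b * R.d - 2 * R.a ^ 2 * R.e + R.a * R.b * R.c - R.b ^ 3) = 0 ∧
      R.f * (-R.a / q) * b1 ^ 2 + (a2 + a1 * ((2 * b1 * R.d - a1) / (2 * q)) +
        q * ((2 * b1 * R.d - a1) / (2 * q)) ^ 2) +
        (R.c - R.b ^ 2 / R.a) * (b1 * ((2 * b1 * R.d - a1) / (2 * q)) + b2) = 0)) :
    DenseNear (SIso q a1 a2 b1 b2 R) := by
  set k : ℚ := -R.a / q with hk
  have hk0 : k ≠ 0 := div_ne_zero (neg_ne_zero.mpr ha) hq
  have hkq : k * q = -R.a := by rw [hk]; field_simp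
  set t3 : ℚ := (2 * b1 * R.d - a1) / (2 * q) with ht3
  have hqt : q * t3 = b1 * R.d - a1 / 2 := by rw [ht3]; field_simp
  set mu : ℚ := R.c - R.b ^ 2 / R.a with hmu
  set t1 : ℚ := R.b / R.a with ht1
  have hat : R.a * t1 = R.b := by rw [ht1]; field_simp
  have hmu' : R.a * mu = R.a * R.c - R.b ^ 2 := by rw [hmu]; field_simp
  set M1 := mat1 k b1 b2 with hM1
  set M2 := mat2 k q a1 a2 R with hM2
  have s1 := mat1_symm k b1 b2
  have s2 := mat2_symm k q a1 a2 R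
  rw [← hM1] at s1
  rw [← hM2] at s2
  set p : Fin 5 → ℚ := ![1, 0, 0, 0, 1] with hp
  set e1 : Fin 5 → ℚ := ![0, 1, 0, 0, t1] with he1
  set e3 : Fin 5 → ℚ := ![0, 0, -(k * b1), 1, t3] with he3
  -- orthogonality
  have hpp1 : bl M1 p p = 0 := by rw [hM1, bl_mat1, hp]; simp
  have hpp2 : bl M2 p p = 0 := by
    rw [hM2, bl_mat2, hp]; simp
    linear_combination hkq
  have hp11 : bl M1 p e1 = 0 := by rw [hM1, bl_mat1, hp, he1]; simp
  have hp12 : bl M2 p e1 = 0 := by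
    rw [hM2, bl_mat2, hp, he1]; simp
    linear_combination t1 * hkq - hat
  have hp31 : bl M1 p e3 = 0 := by
    rw [hM1, bl_mat1, hp, he3]; simp
    ring
  have hp32 : bl M2 p e3 = 0 := by
    rw [hM2, bl_mat2, hp, he3]; simp
    linear_combination k * hqt
  -- values
  have v11 : bl M1 e1 e1 = 1 := by rw [hM1, bl_mat1, he1]; simp
  have v12 : bl M1 e1 e3 = -(k * b1 * t1 / 2) := by
    rw [hM1, bl_mat1, he1, he3]
    simp only [Matrix.cons_val]
    ring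
  have v13 : bl M1 e3 e3 = -(k * (b1 * t3 + b2)) := by
    rw [hM1, bl_mat1, he3]
    simp only [Matrix.cons_val]
    ring
  have v21 : bl M2 e1 e1 = mu := by
    rw [hM2, bl_mat2, he1]; simp
    rw [hmu, ht1]
    have : k * (q * (R.b / R.a) * (R.b / R.a)) = - (R.b ^ 2 / R.a) := by
      have : k * (q * (R.b / R.a) * (R.b / R.a)) = (k * q) * (R.b / R.a) ^ 2 := by ring
      rw [this, hkq]; field_simp
    rw [this]; ring
  have v22 : bl M2 e1 e3 = k * b1 * (t1 * R.d - R.e) := by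
    rw [hM2, bl_mat2, he1, he3]; simp
    linear_combination k * t1 * hqt
  have v23 : bl M2 e3 e3 = R.f * k ^ 2 * b1 ^ 2 + k * (a2 + a1 * t3 + q * t3 ^ 2) := by
    rw [hM2, bl_mat2, he3]
    simp only [Matrix.cons_val]
    ring
  -- the coefficients of the Jacobian
  set A1 := bl M1 e1 e1 with hA1
  set A2 := bl M1 e1 e3 with hA2
  set A3 := bl M1 e3 e3 with hA3
  set C1 := bl M2 e1 e1 with hC1
  set C2 := bl M2 e1 e3 with hC2
  set C3 := bl M2 e3 e3 with hC3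
  have hne : ¬ (A1 * C2 - C1 * A2 = 0 ∧ A1 * C3 - C1 * A3 = 0) := by
    rintro ⟨g1, g2⟩
    apply h
    rw [v11, v12, v21, v22] at g1
    rw [v11, v13, v21, v23] at g2
    constructor
    · have g3 : k * (b1 * (2 * t1 * R.d - 2 * R.e + mu * t1)) = 0 := by
        linear_combination 2 * g1
      have g4 := (mul_eq_zero.mp g3).resolve_left hk0
      linear_combination R.a ^ 2 * g4 - 2 * b1 * R.a * R.d * hat - R.b * b1 * hmu' -
        b1 * R.a * mu * hat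
    · have g3 : k * (R.f * k * b1 ^ 2 + (a2 + a1 * t3 + q * t3 ^ 2) + mu * (b1 * t3 + b2)) = 0 := by
        linear_combination g2
      exact (mul_eq_zero.mp g3).resolve_left hk0
  obtain ⟨x, hx⟩ : ∃ x : ℚ, x ^ 2 * (A1 * C2 - C1 * A2) + x * (A1 * C3 - C1 * A3) +
      (A2 * C3 - C2 * A3) ≠ 0 := by
    by_contra hcon
    push Not at hcon
    have h0 := hcon 0
    have h1 := hcon 1
    have h2 := hcon (-1)
    apply hne
    constructor
    · linarith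
    · linarith
  set e : Fin 5 → ℚ := e3 + x • e1 with he
  have hpe1 : bl M1 p e = 0 := by rw [he, bl_add_right, bl_smul_right, hp31, hp11]; ring
  have hpe2 : bl M2 p e = 0 := by rw [he, bl_add_right, bl_smul_right, hp32, hp12]; ring
  have hee1 : bl M1 e e = A3 + 2 * x * A2 + x ^ 2 * A1 := by
    rw [he]
    simp only [bl_add_left, bl_add_right, bl_smul_left, bl_smul_right]
    rw [bl_comm s1 e3 e1, hA1, hA2, hA3]; ring
  have hee2 : bl M2 e e = C3 + 2 * x * C2 + x ^ 2 * C1 := by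
    rw [he]
    simp only [bl_add_left, bl_add_right, bl_smul_left, bl_smul_right]
    rw [bl_comm s2 e3 e1, hC1, hC2, hC3]; ring
  have heo1 : bl M1 e e1 = A2 + x * A1 := by
    rw [he, bl_add_left, bl_smul_left, bl_comm s1 e3 e1]
  have heo2 : bl M2 e e1 = C2 + x * C1 := by
    rw [he, bl_add_left, bl_smul_left, bl_comm s2 e3 e1]
  have hW : bl M2 e e * bl M1 e e1 - bl M1 e e * bl M2 e e1 ≠ 0 := by
    rw [hee1, hee2, heo1, heo2]
    intro h0
    apply hx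
    linear_combination h0
  -- the transversal vector
  set m1 := bl M1 e e with hm1
  set m2 := bl M2 e e with hm2
  set w0 : Fin 5 → ℚ := ![0, 0, -(2 * m1), 0, (m2 + 2 * R.d * m1) / (k * q)] with hw0
  have hkq0 : k * q ≠ 0 := mul_ne_zero hk0 hq
  have hpw1 : bl M1 p w0 = m1 := by
    rw [hM1, bl_mat1, hp, hw0]
    simp only [Matrix.cons_val]
    ring
  have hpw2 : bl M2 p w0 = m2 := by
    rw [hM2, bl_mat2, hp, hw0]
    simp only [Matrix.cons_val]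
    field_simp
    ring
  set L : ℚ := m2 * bl M1 e e1 - m1 * bl M2 e e1 with hL
  set c : ℚ := (m2 * bl M1 e w0 - m1 * bl M2 e w0) / L with hc
  have hcL : c * L = m2 * bl M1 e w0 - m1 * bl M2 e w0 := by rw [hc]; field_simp
  refine curve (p := p) (e := e) (o := e1) (w := w0 - c • e1) (i := 3) (j := 4) s1 s2
    hpp1 hpp2 hpe1 hpe2 hp11 hp12 ?_ ?_ ?_ ?_ ?_ ?_ ?_ ?_
  · rw [bl_sub_right, bl_smul_right, hpw1, hp11]; ring
  · rw [bl_sub_right, bl_smul_right, hpw2, hp12]; ring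
  · rw [bl_sub_right, bl_smul_right, bl_sub_right, bl_smul_right]
    linear_combination - hcL
  · exact sub_ne_zero.mp hW
  · rw [hp]; simp
  · rw [hp]; simp
  · rw [he, he3, he1]; simp
  · intro v hv1 hv2 hv4
    rw [hM1, bl_mat1] at hv1
    rw [hM2, bl_mat2] at hv2
    by_cases hz : v 0 = 0 ∧ v 1 = 0 ∧ v 2 = 0
    · obtain ⟨z0, z1, z2⟩ := hz
      rw [z0, z1, z2] at hv1 hv2
      have g1 : b1 * v 3 * v 4 + b2 * v 3 ^ 2 = 0 := by
        have : k * (b1 * v 3 * v 4 + b2 * v 3 ^ 2) = 0 := by linear_combination - hv1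
        exact (mul_eq_zero.mp this).resolve_left hk0
      have g2 : q * v 4 ^ 2 + a1 * v 3 * v 4 + a2 * v 3 ^ 2 = 0 := by
        have : k * (q * v 4 ^ 2 + a1 * v 3 * v 4 + a2 * v 3 ^ 2) = 0 := by
          linear_combination hv2
        exact (mul_eq_zero.mp this).resolve_left hk0
      refine ⟨1, 0, 0, by simp, ?_⟩
      have h3 : b1 * (v 3 / v 4) + b2 * (v 3 / v 4) ^ 2 = 0 := by
        field_simp
        linear_combination g1
      rw [h3]; ring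
    · refine ⟨v 0, v 1, v 2, hz, ?_⟩
      have h4 : ((q + a1 * (v 3 / v 4) + a2 * (v 3 / v 4) ^ 2) * (v 1 ^ 2 - v 0 * v 2) +
          (b1 * (v 3 / v 4) + b2 * (v 3 / v 4) ^ 2) * R.ev (v 0) (v 1) (v 2)) * v 4 ^ 2 = 0 := by
        have e1' : (q + a1 * (v 3 / v 4) + a2 * (v 3 / v 4) ^ 2) * v 4 ^ 2 =
            q * v 4 ^ 2 + a1 * v 3 * v 4 + a2 * v 3 ^ 2 := by field_simp
        have e2' : (b1 * (v 3 / v 4) + b2 * (v 3 / v 4) ^ 2) * v 4 ^ 2 =
            b1 * v 3 * v 4 + b2 * v 3 ^ 2 := by field_simp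
        calc _ = ((q + a1 * (v 3 / v 4) + a2 * (v 3 / v 4) ^ 2) * v 4 ^ 2) *
              (v 1 ^ 2 - v 0 * v 2) + ((b1 * (v 3 / v 4) + b2 * (v 3 / v 4) ^ 2) * v 4 ^ 2) *
              R.ev (v 0) (v 1) (v 2) := by ring
          _ = 0 := by
            rw [e1', e2']
            unfold Tern.ev
            linear_combination (q * v 4 ^ 2 + a1 * v 3 * v 4 + a2 * v 3 ^ 2) * hv1 +
              (b1 * v 3 * v 4 + b2 * v 3 ^ 2) * hv2
      exact (mul_eq_zero.mp h4).resolve_right (pow_ne_zero 2 hv4)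

end Pool.Agent.Lib.MP42.QB
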