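import Pool.Agent.Lib.MP_42de19_nt.QB.DefsB
import Pool.Agent.Lib.MP_42de19_nt.QB.Near

set_option autoImplicit false

/-! Quadric bundles (MP_42de19_nt), piece F2: the closure of the rational good points. -/

namespace Pool.Agent.Lib.MP42.QB

open Topology Filter Set
open Pool.Agent.Lib.MP42.CubicHyp (castV ratV dense_ratV)

private theorem tr_cont {N k : ℕ} (M : Matrix (Fin N) (Fin N) (MvPolynomial (Fin k) ℚ)) :
    Continuous (Mt M) := by
  refine continuous_matrix fun i j => ?_
  have h : (fun t : Fin k → ℝ => Mt M t i j) =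
      fun t => MvPolynomial.eval t (MvPolynomial.map (algebraMap ℚ ℝ) (M i j)) := by
    funext t
    rw [MvPolynomial.eval_map]
    rfl
  rw [h]
  exact MvPolynomial.continuous_eval _

private theorem tr_rat {N k : ℕ} (M : Matrix (Fin N) (Fin N) (MvPolynomial (Fin k) ℚ))
    {t : Fin k → ℝ} (ht : t ∈ ratV k) : ∃ A : Matrix (Fin N) (Fin N) ℚ, Mt M t = castM A := by
  obtain ⟨q, rfl⟩ := ht
  refine ⟨M.map (MvPolynomial.aeval q), ?_⟩
  ext i j
  have h := MvPolynomial.aeval_algebraMap_apply ℝ q (M i j)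
  exact h

private theorem tr_good_smul {N : ℕ} {F : Matrix (Fin N) (Fin N) ℝ} {v : Fin N → ℝ} {c : ℝ}
    (hc : c ≠ 0) (h : Good F v) : Good F (c • v) := by
  obtain ⟨h0, ⟨w, hw⟩, z, hz, hz'⟩ := h
  refine ⟨?_, ⟨w, ?_⟩, z, ?_, hz'⟩
  · rw [bl_smul_left, bl_smul_right, h0, mul_zero, mul_zero]
  · rw [bl_smul_left]
    exact mul_ne_zero hc hw
  · rw [bl_smul_left, hz, mul_zero]

private theorem tr_cont_tp {n k : ℕ} : Continuous (tp : (Fin (n + k) → ℝ) → Fin k → ℝ) :=
  continuous_pi fun _ => continuous_apply _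

/-- the closure of the rational good points in the set of the real good points -/
theorem closure_inter_Xo {n k : ℕ}
    {M : Matrix (Fin (n + 1)) (Fin (n + 1)) (MvPolynomial (Fin k) ℚ)} (hM : M.IsSymm) :
    closure {x | x ∈ Xo M ∧ x ∈ ratV (n + k)} ∩ Xo M = {x | x ∈ Xo M ∧ tp x ∈ closure (Sm M)} := by
  apply Set.Subset.antisymm
  · rintro x ⟨hx, hx'⟩
    refine ⟨hx', map_mem_closure tr_cont_tp hx ?_⟩
    rintro y ⟨hy, q, rfl⟩
    refine ⟨⟨fun j => q (Fin.natAdd n j), rfl⟩, Fin.cons 1 fun i => q (Fin.castAdd k i), ?_⟩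
    have h : castV (Fin.cons (1 : ℚ) fun i => q (Fin.castAdd k i)) =
        (Fin.cons 1 (zp (castV q)) : Fin (n + 1) → ℝ) := by
      funext i
      refine Fin.cases ?_ (fun i => ?_) i
      · simp [castV]
      · simp [castV, zp]
    rw [h]
    exact hy
  · rintro x ⟨hx, hx'⟩
    refine ⟨?_, hx⟩
    rw [mem_closure_iff_nhds]
    intro O hO
    set Φ : (Fin (n + 1) → ℝ) × (Fin k → ℝ) → Fin (n + k) → ℝ := fun p =>
      Fin.append (fun i : Fin n => (p.1 0)⁻¹ * p.1 i.succ) p.2 with hΦ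
    set v₀ : Fin (n + 1) → ℝ := Fin.cons 1 (zp x) with hv₀
    have hv0 : v₀ 0 = 1 := by simp [hv₀]
    have hΦc : ContinuousAt Φ (v₀, tp x) := by
      rw [continuousAt_pi]
      intro i
      refine Fin.addCases (fun i => ?_) (fun j => ?_) i
      · have h1 : (fun p => Φ p (Fin.castAdd k i)) = fun p => (p.1 0)⁻¹ * p.1 i.succ := by
          funext p
          simp [hΦ]
        rw [h1]
        refine ContinuousAt.mul (ContinuousAt.inv₀ ?_ ?_) ?_
        · exact ((continuous_apply 0).comp continuous_fst).continuousAt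
        · simp [hv0]
        · exact ((continuous_apply i.succ).comp continuous_fst).continuousAt
      · have h1 : (fun p => Φ p (Fin.natAdd n j)) = fun p => p.2 j := by
          funext p
          simp [hΦ]
        rw [h1]
        exact ((continuous_apply j).comp continuous_snd).continuousAt
    have hΦx : Φ (v₀, tp x) = x := by
      funext i
      refine Fin.addCases (fun i => ?_) (fun j => ?_) i
      · simp [hΦ, hv₀, zp]
      · simp [hΦ, tp]
    have h1 : ∀ᶠ p in 𝓝 (v₀, tp x), Φ p ∈ O := hΦc.eventually (by rw [hΦx]; exact hO)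
    rw [nhds_prod_eq, Filter.eventually_prod_iff] at h1
    obtain ⟨p, hp, q, hq, hpq⟩ := h1
    have h2 : ∀ᶠ v : Fin (n + 1) → ℝ in 𝓝 v₀, v 0 ≠ 0 :=
      (continuous_apply 0).continuousAt.eventually_ne (by rw [hv0]; exact one_ne_zero)
    have h3 := exists_rat_good (F := Mt M) (t₀ := tp x) (tr_cont M).continuousAt (Mt_symm hM)
      (v₀ := v₀) hx (hp.and h2)
    obtain ⟨t, htS, ht, hqt⟩ := ((mem_closure_iff_frequently.1 hx').and_eventually
      (h3.and hq)).exists
    obtain ⟨v, ⟨hv1, hv2⟩, hvg⟩ := ht (tr_rat M htS.1) htS.2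
    refine ⟨Φ (castV v, t), hpq hv1 hqt, ?_, ?_⟩
    · have h4 : tp (Φ (castV v, t)) = t := by
        funext j
        simp [hΦ, tp]
      have h5 : (Fin.cons 1 (zp (Φ (castV v, t))) : Fin (n + 1) → ℝ) = (castV v 0)⁻¹ • castV v := by
        funext i
        refine Fin.cases ?_ (fun i => ?_) i
        · simp only [Fin.cons_zero, Pi.smul_apply, smul_eq_mul]
          rw [inv_mul_cancel₀ hv2]
        · simp [hΦ, zp]
      show Good (Mt M (tp (Φ (castV v, t)))) (Fin.cons 1 (zp (Φ (castV v, t))))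
      rw [h4, h5]
      exact tr_good_smul (inv_ne_zero hv2) hvg
    · obtain ⟨r, rfl⟩ := htS.1
      refine ⟨Fin.append (fun i : Fin n => (v 0)⁻¹ * v i.succ) r, ?_⟩
      funext i
      refine Fin.addCases (fun i => ?_) (fun j => ?_) i
      · simp [hΦ, castV]
      · simp [hΦ, castV]

end Pool.Agent.Lib.MP42.QB
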